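import Pool.Agent.Helper29_HSet.Basic

/-!
The extremal kernel: points of the circle staying away from `0` produce a large
exponential sum of small frequency.
-/

set_option autoImplicit false

namespace Pool.Agent.Helper29_HSet

open Finset

/-- the sine polynomial -/
noncomputable def sinPoly (θ : ℝ) (n : ℕ) (x : ℝ) : ℂ :=
  ∑ k ∈ range n, ((Real.sin ((k + 1) * θ) : ℝ) : ℂ) * ex (k * x)

lemma sinPoly_mul (θ : ℝ) (n : ℕ) (x : ℝ) :
    (ex x + ex (-x) - 2 * (Real.cos θ : ℂ)) * sinPoly θ n x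
      = (Real.sin θ : ℂ) * ex (-x) + ((Real.sin (n * θ) : ℝ) : ℂ) * ex (n * x)
        - ((Real.sin ((n + 1) * θ) : ℝ) : ℂ) * ex ((n - 1) * x) := by
  induction n with
  | zero =>
    simp [sinPoly]
  | succ n ih =>
    have hs : sinPoly θ (n + 1) x
        = sinPoly θ n x + ((Real.sin ((n + 1) * θ) : ℝ) : ℂ) * ex (n * x) := by
      unfold sinPoly
      rw [sum_range_succ]
    rw [hs, mul_add, ih]
    have e1 : ex (((n + 1 : ℕ) : ℝ) * x) = ex (n * x) * ex x := by
      rw [← ex_add]; congr 1; push_cast; ring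
    have e2 : ex ((((n + 1 : ℕ) : ℝ) - 1) * x) = ex (n * x) := by
      congr 1; push_cast; ring
    have e3 : ex (((n : ℝ) - 1) * x) = ex (n * x) * ex (-x) := by
      rw [← ex_add]; congr 1; ring
    have e4 : Real.sin ((((n + 1 : ℕ) : ℝ) + 1) * θ)
        = 2 * Real.cos θ * Real.sin ((n + 1) * θ) - Real.sin (n * θ) := by
      have a1 : (((n + 1 : ℕ) : ℝ) + 1) * θ = (n + 1) * θ + θ := by push_cast; ring
      have a2 : (n : ℝ) * θ = (n + 1) * θ - θ := by ring
      rw [a1, a2, Real.sin_add, Real.sin_sub]; ring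
    have e5 : ((n + 1 : ℕ) : ℝ) * θ = (n + 1) * θ := by push_cast; ring
    rw [e1, e2, e3, e4, e5]
    push_cast
    ring

lemma sinPoly_zero (θ : ℝ) (n : ℕ) :
    sinPoly θ n 0 = ((∑ k ∈ range n, Real.sin ((k + 1) * θ) : ℝ) : ℂ) := by
  unfold sinPoly
  push_cast
  apply sum_congr rfl
  intro k _
  simp [ex_zero]

/-- pointwise expansion -/
lemma kernel_identity (θ φ : ℝ) (n : ℕ) (hθ : ((n : ℝ) + 1) * θ = Real.pi) (x : ℝ) :
    (((Real.cos (2 * Real.pi * x) - Real.cos φ) * ‖sinPoly θ n x‖ ^ 2 : ℝ) : ℂ)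
      = (Real.sin θ / 2 : ℝ) * ∑ k ∈ range n, ((Real.sin ((k + 1) * θ) : ℝ) : ℂ) *
          (ex (-((k + 1 : ℕ) * x)) + ex ((n - k : ℕ) * x))
        + ((Real.cos θ - Real.cos φ : ℝ) : ℂ) * ∑ k ∈ range n, ∑ l ∈ range n,
            ((Real.sin ((k + 1) * θ) : ℝ) : ℂ) * ((Real.sin ((l + 1) * θ) : ℝ) : ℂ) *
              ex (((k : ℝ) - l) * x) := by
  have hP := sinPoly_mul θ n x
  have hn1 : Real.sin (((n : ℝ) + 1) * θ) = 0 := by rw [hθ, Real.sin_pi]
  have hn2 : Real.sin ((n : ℝ) * θ) = Real.sin θ := by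
    have : (n : ℝ) * θ = Real.pi - θ := by rw [← hθ]; ring
    rw [this, Real.sin_pi_sub]
  rw [hn1, hn2] at hP
  have hcos : ex x + ex (-x) = ((2 * Real.cos (2 * Real.pi * x) : ℝ) : ℂ) := by
    apply Complex.ext
    · rw [Complex.add_re, ex_re, ex_re, Complex.ofReal_re]
      have a1 : 2 * Real.pi * (-x) = -(2 * Real.pi * x) := by ring
      rw [a1, Real.cos_neg]; ring
    · rw [Complex.add_im, ex_im, ex_im, Complex.ofReal_im]
      have a1 : 2 * Real.pi * (-x) = -(2 * Real.pi * x) := by ring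
      rw [a1, Real.sin_neg]; ring
  have hnorm : ((‖sinPoly θ n x‖ ^ 2 : ℝ) : ℂ)
      = sinPoly θ n x * (starRingEnd ℂ) (sinPoly θ n x) := by
    rw [Complex.mul_conj, Complex.normSq_eq_norm_sq]
  have hconj : (starRingEnd ℂ) (sinPoly θ n x)
      = ∑ k ∈ range n, ((Real.sin ((k + 1) * θ) : ℝ) : ℂ) * ex (-(k * x)) := by
    unfold sinPoly
    rw [map_sum]
    apply sum_congr rfl
    intro k _
    rw [map_mul, Complex.conj_ofReal, conj_ex]
  have hsplit : (((Real.cos (2 * Real.pi * x) - Real.cos φ) * ‖sinPoly θ n x‖ ^ 2 : ℝ) : ℂ)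
      = (1 / 2 : ℂ) * ((ex x + ex (-x) - 2 * (Real.cos θ : ℂ)) * sinPoly θ n x) *
          (starRingEnd ℂ) (sinPoly θ n x)
        + ((Real.cos θ - Real.cos φ : ℝ) : ℂ) *
          (sinPoly θ n x * (starRingEnd ℂ) (sinPoly θ n x)) := by
    rw [Complex.ofReal_mul, hnorm, hcos]
    push_cast
    ring
  rw [hsplit, hP]
  congr 1
  · rw [hconj, mul_sum, mul_sum]
    apply sum_congr rfl
    intro k hk
    have hk' : k < n := mem_range.mp hk
    have e1 : ex (-((k + 1 : ℕ) * x)) = ex (-x) * ex (-(k * x)) := by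
      rw [← ex_add]; congr 1; push_cast; ring
    have e2 : ex (((n - k : ℕ) : ℝ) * x) = ex (n * x) * ex (-(k * x)) := by
      rw [← ex_add]; congr 1; rw [Nat.cast_sub hk'.le]; ring
    rw [e1, e2]
    push_cast
    ring
  · congr 1
    rw [hconj]
    unfold sinPoly
    rw [sum_mul_sum]
    apply sum_congr rfl
    intro k _
    apply sum_congr rfl
    intro l _
    have e1 : ex (((k : ℝ) - l) * x) = ex (k * x) * ex (-(l * x)) := by
      rw [← ex_add]; congr 1; ring
    rw [e1]; ring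

lemma kernel_num (c c' S A M n δ : ℝ) (hc : c' = 2 * c ^ 2 - 1) (h2 : 0 ≤ c) (h3 : c ≤ 1)
    (hS : 0 < S) (hSA : S ^ 2 ≤ n * A) (hcc : 0 < c - c') (hM : 0 < M) (hn : 0 < n)
    (hδ : δ = 1 / (3 * n))
    (hre : (c - c') * (A * M) ≤ (1 - c) * S ^ 2 * (δ * M) + (c - c') * (S ^ 2 * (δ * M))) :
    False := by
  have hkey : (1 - c') ≤ 2 * (c - c') := by
    rw [hc]
    nlinarith
  have hδ0 : 0 < δ := by rw [hδ]; positivity
  have hApos : 0 < A := by
    have h1 : 0 < S ^ 2 := pow_pos hS 2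
    by_contra hneg
    have : (n : ℝ) * A ≤ 0 := mul_nonpos_of_nonneg_of_nonpos hn.le (not_lt.mp hneg)
    linarith
  have h6 : (c - c') * (A * M) ≤ (1 - c') * S ^ 2 * (δ * M) := by
    refine hre.trans (le_of_eq ?_)
    ring
  have h7 : (1 - c') * S ^ 2 * (δ * M)
      ≤ (2 * (c - c')) * (n * A) * (δ * M) := by
    have hδM : 0 ≤ δ * M := by positivity
    apply mul_le_mul_of_nonneg_right _ hδM
    exact mul_le_mul hkey hSA (sq_nonneg S) (by linarith)
  have h8 : (2 * (c - c')) * (n * A) * (δ * M)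
      = (2 / 3) * ((c - c') * (A * M)) := by
    rw [hδ]; field_simp
  have h9 : 0 < (c - c') * (A * M) := by positivity
  linarith

/-- The kernel lemma. -/
lemma kernel_lemma {ι : Type*} (s : Finset ι) (hs : s.Nonempty) (x : ι → ℝ) (n : ℕ) (hn : 1 ≤ n)
    (hx : ∀ i ∈ s, 1 / ((n : ℝ) + 1) ≤ dInt (x i)) :
    ∃ h : ℕ, 1 ≤ h ∧ h ≤ n ∧ (s.card : ℝ) / (3 * n) ≤ ‖∑ i ∈ s, ex (h * x i)‖ := by
  by_contra hcon
  push Not at hcon
  set M : ℝ := (s.card : ℝ) with hM
  have hMpos : 0 < M := by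
    rw [hM]; exact_mod_cast Finset.card_pos.mpr hs
  have hn0 : (0 : ℝ) < n := by exact_mod_cast hn
  set δ : ℝ := 1 / (3 * n) with hδ
  have hδpos : 0 < δ := by positivity
  set θ : ℝ := Real.pi / (n + 1) with hθ
  set φ : ℝ := 2 * θ with hφ
  have hpi := Real.pi_pos
  have hθpos : 0 < θ := by positivity
  have hθle : θ ≤ Real.pi / 2 := by
    rw [hθ]
    apply div_le_div_of_nonneg_left hpi.le (by norm_num)
    have : (1 : ℝ) ≤ n := by exact_mod_cast hn
    linarith
  have hθe : ((n : ℝ) + 1) * θ = Real.pi := by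
    rw [hθ]; field_simp
  -- signs
  have hsign : ∀ i ∈ s, Real.cos (2 * Real.pi * x i) - Real.cos φ ≤ 0 := by
    intro i hi
    have h1 := hx i hi
    have h2 : Real.cos (2 * Real.pi * x i) = Real.cos (2 * Real.pi * dInt (x i)) := by
      have e1 : Real.cos (2 * Real.pi * x i)
          = Real.cos (2 * Real.pi * (x i - round (x i))) := by
        have : 2 * Real.pi * x i
            = 2 * Real.pi * (x i - round (x i)) + (round (x i) : ℤ) * (2 * Real.pi) := by ring
        rw [this, Real.cos_add_int_mul_two_pi]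
      rw [e1]
      unfold dInt
      rcases abs_cases (x i - round (x i)) with ⟨h, _⟩ | ⟨h, _⟩
      · rw [h]
      · rw [h]
        have : 2 * Real.pi * -(x i - round (x i)) = -(2 * Real.pi * (x i - round (x i))) := by ring
        rw [this, Real.cos_neg]
    rw [h2]
    have h3 : Real.cos (2 * Real.pi * dInt (x i)) ≤ Real.cos φ := by
      apply Real.cos_le_cos_of_nonneg_of_le_pi
      · rw [hφ]; positivity
      · have := dInt_le_half (x i)
        nlinarith
      · rw [hφ, hθ]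
        have : 2 * (Real.pi / (n + 1)) = 2 * Real.pi * (1 / ((n : ℝ) + 1)) := by ring
        rw [this]
        gcongr
    linarith
  set a : ℕ → ℝ := fun k => Real.sin ((k + 1) * θ) with ha
  have ha0 : ∀ k ∈ range n, 0 ≤ a k := by
    intro k hk
    have hk' : k < n := mem_range.mp hk
    apply Real.sin_nonneg_of_nonneg_of_le_pi
    · positivity
    · rw [← hθe]
      have : (k : ℝ) < n := by exact_mod_cast hk'
      gcongr
  set S : ℝ := ∑ k ∈ range n, a k with hS
  set A : ℝ := ∑ k ∈ range n, a k ^ 2 with hA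
  have hS0 : 0 ≤ S := sum_nonneg ha0
  have hSθ : (1 - Real.cos θ) * S = Real.sin θ := by
    have h := sinPoly_mul θ n 0
    rw [sinPoly_zero] at h
    have hn1 : Real.sin (((n : ℝ) + 1) * θ) = 0 := by rw [hθe, Real.sin_pi]
    have hn2 : Real.sin ((n : ℝ) * θ) = Real.sin θ := by
      have : (n : ℝ) * θ = Real.pi - θ := by rw [← hθe]; ring
      rw [this, Real.sin_pi_sub]
    rw [hn1, hn2] at h
    simp only [neg_zero, mul_zero, ex_zero, mul_one, Complex.ofReal_zero, sub_zero] at h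
    have h' : ((1 + 1 - 2 * Real.cos θ) * S : ℝ) = Real.sin θ + Real.sin θ := by
      have : (((1 + 1 - 2 * Real.cos θ) * S : ℝ) : ℂ) = ((Real.sin θ + Real.sin θ : ℝ) : ℂ) := by
        have h2 : (∑ k ∈ range n, Real.sin ((k + 1) * θ) : ℝ) = S := rfl
        rw [h2] at h
        push_cast
        push_cast at h
        linear_combination h
      exact_mod_cast this
    linarith
  have hSA : S ^ 2 ≤ n * A := by
    have := sq_sum_le_card_mul_sum_sq (s := range n) (f := a)
    rw [card_range] at this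
    exact this
  have hSpos : 0 < S := by
    rw [hS]
    apply sum_pos
    · intro k hk
      have hk' : k < n := mem_range.mp hk
      apply Real.sin_pos_of_pos_of_lt_pi
      · positivity
      · rw [← hθe]
        have : (k : ℝ) < n := by exact_mod_cast hk'
        gcongr
    · exact ⟨0, mem_range.mpr (by omega)⟩
  -- the summed identity
  have hsum : (∑ i ∈ s, (Real.cos (2 * Real.pi * x i) - Real.cos φ) * ‖sinPoly θ n (x i)‖ ^ 2) ≤ 0 := by
    apply sum_nonpos
    intro i hi
    apply mul_nonpos_of_nonpos_of_nonneg (hsign i hi) (by positivity)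
  set E : ℕ → ℂ := fun h => ∑ i ∈ s, ex (h * x i) with hE
  have hEb : ∀ h : ℕ, 1 ≤ h → h ≤ n → ‖E h‖ ≤ δ * M := by
    intro h h1 h2
    have := hcon h h1 h2
    rw [hE]
    refine this.le.trans (le_of_eq ?_)
    rw [hδ]; ring
  have hEneg : ∀ h : ℕ, ‖∑ i ∈ s, ex (-(h * x i))‖ = ‖E h‖ := by
    intro h
    rw [hE]
    have : (∑ i ∈ s, ex (-(h * x i))) = (starRingEnd ℂ) (∑ i ∈ s, ex (h * x i)) := by
      rw [map_sum]
      apply sum_congr rfl
      intro i _
      rw [conj_ex]
    rw [this, RCLike.norm_conj]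
  have hid : ((∑ i ∈ s, (Real.cos (2 * Real.pi * x i) - Real.cos φ) * ‖sinPoly θ n (x i)‖ ^ 2 : ℝ) : ℂ)
      = (Real.sin θ / 2 : ℝ) * ∑ k ∈ range n, (a k : ℂ) *
          ((∑ i ∈ s, ex (-((k + 1 : ℕ) * x i))) + E (n - k))
        + ((Real.cos θ - Real.cos φ : ℝ) : ℂ) * ∑ k ∈ range n, ∑ l ∈ range n,
            (a k : ℂ) * (a l : ℂ) * ∑ i ∈ s, ex (((k : ℝ) - l) * x i) := by
    rw [Complex.ofReal_sum]
    rw [sum_congr rfl (fun i _ => kernel_identity θ φ n hθe (x i))]
    rw [sum_add_distrib, ← mul_sum, ← mul_sum]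
    congr 1
    · congr 1
      rw [sum_comm]
      apply sum_congr rfl
      intro k _
      rw [← mul_sum, sum_add_distrib]
    · congr 1
      rw [sum_comm]
      apply sum_congr rfl
      intro k _
      rw [sum_comm]
      apply sum_congr rfl
      intro l _
      rw [← mul_sum]
  -- first part bound
  have hc1 : 0 ≤ Real.sin θ / 2 := by
    have : 0 ≤ Real.sin θ := Real.sin_nonneg_of_nonneg_of_le_pi hθpos.le (by linarith)
    linarith
  have hb1 : ‖(Real.sin θ / 2 : ℝ) * ∑ k ∈ range n, (a k : ℂ) *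
          ((∑ i ∈ s, ex (-((k + 1 : ℕ) * x i))) + E (n - k))‖ ≤ (1 - Real.cos θ) * S ^ 2 * (δ * M) := by
    rw [norm_mul, Complex.norm_real, Real.norm_eq_abs, abs_of_nonneg hc1]
    have h1 : ‖∑ k ∈ range n, (a k : ℂ) *
          ((∑ i ∈ s, ex (-((k + 1 : ℕ) * x i))) + E (n - k))‖ ≤ ∑ k ∈ range n, a k * (2 * (δ * M)) := by
      refine (norm_sum_le _ _).trans (sum_le_sum ?_)
      intro k hk
      have hk' : k < n := mem_range.mp hk
      rw [norm_mul, Complex.norm_real, Real.norm_eq_abs, abs_of_nonneg (ha0 k hk)]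
      apply mul_le_mul_of_nonneg_left _ (ha0 k hk)
      refine (norm_add_le _ _).trans ?_
      rw [hEneg (k + 1)]
      have h2 := hEb (k + 1) (by omega) (by omega)
      have h3 := hEb (n - k) (by omega) (by omega)
      linarith
    calc Real.sin θ / 2 * ‖∑ k ∈ range n, (a k : ℂ) *
          ((∑ i ∈ s, ex (-((k + 1 : ℕ) * x i))) + E (n - k))‖
        ≤ Real.sin θ / 2 * ∑ k ∈ range n, a k * (2 * (δ * M)) := by gcongr
      _ = Real.sin θ * S * (δ * M) := by rw [← sum_mul]; ring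
      _ = (1 - Real.cos θ) * S ^ 2 * (δ * M) := by rw [← hSθ]; ring
  -- second part
  have hcc : 0 < Real.cos θ - Real.cos φ := by
    have : Real.cos φ < Real.cos θ := by
      apply Real.cos_lt_cos_of_nonneg_of_le_pi hθpos.le
      · rw [hφ]; linarith
      · rw [hφ]; linarith
    linarith
  have hdiag : ∑ k ∈ range n, ∑ l ∈ range n,
            (a k : ℂ) * (a l : ℂ) * ∑ i ∈ s, ex (((k : ℝ) - l) * x i)
      = ((A * M : ℝ) : ℂ) + ∑ k ∈ range n, ∑ l ∈ (range n).erase k,
            (a k : ℂ) * (a l : ℂ) * ∑ i ∈ s, ex (((k : ℝ) - l) * x i) := by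
    have : ∀ k ∈ range n, ∑ l ∈ range n,
            (a k : ℂ) * (a l : ℂ) * ∑ i ∈ s, ex (((k : ℝ) - l) * x i)
        = ((a k ^ 2 * M : ℝ) : ℂ) + ∑ l ∈ (range n).erase k,
            (a k : ℂ) * (a l : ℂ) * ∑ i ∈ s, ex (((k : ℝ) - l) * x i) := by
      intro k hk
      rw [← add_sum_erase _ _ hk]
      congr 1
      have : ∑ i ∈ s, ex (((k : ℝ) - k) * x i) = (M : ℂ) := by
        simp [ex_zero, hM]
      rw [this]; push_cast; ring
    rw [sum_congr rfl this, sum_add_distrib]
    congr 1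
    rw [← Complex.ofReal_sum, ← sum_mul]
  have hoff : ‖∑ k ∈ range n, ∑ l ∈ (range n).erase k,
            (a k : ℂ) * (a l : ℂ) * ∑ i ∈ s, ex (((k : ℝ) - l) * x i)‖ ≤ S ^ 2 * (δ * M) := by
    calc _ ≤ ∑ k ∈ range n, ∑ l ∈ (range n).erase k, a k * a l * (δ * M) := by
          refine (norm_sum_le _ _).trans (sum_le_sum ?_)
          intro k hk
          refine (norm_sum_le _ _).trans (sum_le_sum ?_)
          intro l hl
          have hl' := mem_erase.mp hl
          have hkn := mem_range.mp hk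
          have hln := mem_range.mp hl'.2
          rw [norm_mul, norm_mul, Complex.norm_real, Complex.norm_real, Real.norm_eq_abs,
            Real.norm_eq_abs, abs_of_nonneg (ha0 k hk), abs_of_nonneg (ha0 l hl'.2)]
          apply mul_le_mul_of_nonneg_left _ (mul_nonneg (ha0 k hk) (ha0 l hl'.2))
          rcases lt_or_gt_of_ne hl'.1 with hlt | hgt
          · have e : ∀ i, ex (((k : ℝ) - l) * x i) = ex (((k - l : ℕ) : ℝ) * x i) := by
              intro i; rw [Nat.cast_sub hlt.le]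
            rw [sum_congr rfl (fun i _ => e i)]
            exact hEb (k - l) (by omega) (by omega)
          · have e : ∀ i, ex (((k : ℝ) - l) * x i) = ex (-(((l - k : ℕ) : ℝ) * x i)) := by
              intro i; rw [Nat.cast_sub hgt.le]; congr 1; ring
            rw [sum_congr rfl (fun i _ => e i), hEneg]
            exact hEb (l - k) (by omega) (by omega)
      _ ≤ ∑ k ∈ range n, ∑ l ∈ range n, a k * a l * (δ * M) := by
          apply sum_le_sum
          intro k hk
          apply sum_le_sum_of_subset_of_nonneg (erase_subset _ _)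
          intro l hl _
          exact mul_nonneg (mul_nonneg (ha0 k hk) (ha0 l hl)) (by positivity)
      _ = S ^ 2 * (δ * M) := by
          rw [hS, sq, sum_mul_sum, sum_mul]
          apply sum_congr rfl
          intro k _
          rw [sum_mul]
  -- combine
  have hre : (Real.cos θ - Real.cos φ) * (A * M)
      ≤ (1 - Real.cos θ) * S ^ 2 * (δ * M) + (Real.cos θ - Real.cos φ) * (S ^ 2 * (δ * M)) := by
    rw [hdiag] at hid
    set X := ((Real.sin θ / 2 : ℝ) : ℂ) * ∑ k ∈ range n, (a k : ℂ) *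
          ((∑ i ∈ s, ex (-((k + 1 : ℕ) * x i))) + E (n - k)) with hX
    set Y := ∑ k ∈ range n, ∑ l ∈ (range n).erase k,
            (a k : ℂ) * (a l : ℂ) * ∑ i ∈ s, ex (((k : ℝ) - l) * x i) with hY
    clear_value X Y
    have h1 := congrArg Complex.re hid
    rw [Complex.ofReal_re, Complex.add_re, Complex.re_ofReal_mul, Complex.add_re,
      Complex.ofReal_re] at h1
    have h2 : -‖X‖ ≤ X.re := by
      have := Complex.abs_re_le_norm X
      exact (abs_le.mp this).1
    have h3 : -‖Y‖ ≤ Y.re := by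
      have := Complex.abs_re_le_norm Y
      exact (abs_le.mp this).1
    have h4 : (Real.cos θ - Real.cos φ) * (-(S ^ 2 * (δ * M))) ≤ (Real.cos θ - Real.cos φ) * Y.re := by
      apply mul_le_mul_of_nonneg_left _ hcc.le
      linarith
    have h5 : (Real.cos θ - Real.cos φ) * (A * M + Y.re)
        = (Real.cos θ - Real.cos φ) * (A * M) + (Real.cos θ - Real.cos φ) * Y.re := by ring
    rw [h5] at h1
    linarith
  -- numerical contradiction
  have hcφ : Real.cos φ = 2 * Real.cos θ ^ 2 - 1 := by rw [hφ, Real.cos_two_mul]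
  have h2 : 0 ≤ Real.cos θ := Real.cos_nonneg_of_neg_pi_div_two_le_of_le (by linarith) hθle
  have h3 : Real.cos θ ≤ 1 := Real.cos_le_one θ
  exact kernel_num _ _ S A M n δ hcφ h2 h3 hSpos hSA hcc hMpos hn0 hδ hre

end Pool.Agent.Helper29_HSet
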