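import Pool.Agent.Helper29_HSet.Weyl
import Pool.Agent.Helper29_HSet.Kernel

/-!
From many zero-one integers near the integers to a good rational approximation with
controlled denominator, and the extraction of a good square.
-/

set_option autoImplicit false

namespace Pool.Agent.Helper29_HSet

open Finset

lemma equi {b : ℕ} (hb : 2 ≤ b) (ρ : ℝ) (hρ : 0 < ρ) (k R m w : ℕ) (hk : 1 / ρ < 2 ^ k)
    (hR : th b ^ R ≤ ρ / 2) (hm : k * (R + 1) ≤ m) (hw : m + 2 ≤ w) (κ c : ℝ)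
    (hcnt : ρ * 2 ^ m ≤ cnt b m (fun x => dInt (κ * (x + c)) < 1 / (b : ℝ) ^ (2 * w))) :
    ∃ (v r : ℕ) (A : ℤ), 1 ≤ v ∧ (v : ℝ) ≤ 2 / ρ ∧ r ≤ k ∧
      |(b : ℝ) ^ r * v * κ - A| ≤ (b : ℝ) ^ r * v / (b : ℝ) ^ w := by
  classical
  have hb1 : (2 : ℝ) ≤ b := by exact_mod_cast hb
  have hb0 : (0 : ℝ) < b := by linarith
  have hkm : k ≤ m := by nlinarith
  -- Dirichlet
  obtain ⟨q, hq1, hq2⟩ := Real.exists_rat_abs_sub_le_and_den_le κ (n := b ^ w) (by positivity)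
  set u := q.den with hu
  have hu1 : 1 ≤ u := q.den_pos
  have hu0 : (0 : ℝ) < u := by exact_mod_cast hu1
  set B : ℝ := (b : ℝ) ^ w with hB
  have hB0 : 0 < B := by positivity
  have hqB : |κ - q| ≤ 1 / (B * u) := by
    refine hq1.trans ?_
    apply one_div_le_one_div_of_le (by positivity)
    push_cast
    nlinarith
  have huB : (u : ℝ) ≤ B := by
    rw [hB]; exact_mod_cast hq2
  have hbm : (b : ℝ) ^ m * 4 ≤ B := by
    rw [hB]
    calc (b : ℝ) ^ m * 4 ≤ (b : ℝ) ^ m * (b : ℝ) ^ 2 := by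
          apply mul_le_mul_of_nonneg_left _ (by positivity)
          nlinarith
      _ = (b : ℝ) ^ (m + 2) := by rw [pow_add]
      _ ≤ (b : ℝ) ^ w := pow_le_pow_right₀ (by linarith) hw
  have hB4 : 4 ≤ B := by
    have : (1 : ℝ) ≤ (b : ℝ) ^ m := one_le_pow₀ (by linarith)
    linarith
  have hq : (q : ℝ) = (q.num : ℝ) / u := by
    rw [hu]; exact_mod_cast (Rat.num_div_den q).symm
  -- lower bound for the count
  have hbig : (1 : ℝ) < ρ * 2 ^ m := by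
    have h1 : (2 : ℝ) ^ k ≤ 2 ^ m := pow_le_pow_right₀ (by norm_num) hkm
    have h2 : ρ * (1 / ρ) < ρ * 2 ^ k := by gcongr
    have h3 : ρ * (1 / ρ) = 1 := by field_simp
    have h4 : ρ * 2 ^ k ≤ ρ * 2 ^ m := by gcongr
    linarith
  have hne : ∃ U0 ∈ DS b m, dInt (κ * (U0 + c)) < 1 / (b : ℝ) ^ (2 * w) := by
    by_contra hno
    push Not at hno
    have : cnt b m (fun x => dInt (κ * (x + c)) < 1 / (b : ℝ) ^ (2 * w)) = 0 := by
      apply cnt_eq_zero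
      intro x hx
      exact not_lt.mpr (hno x hx)
    rw [this] at hcnt
    push_cast at hcnt
    linarith
  obtain ⟨U0, hU0, hU0'⟩ := hne
  have hsub : cnt b m (fun x => dInt (κ * (x + c)) < 1 / (b : ℝ) ^ (2 * w)) ≤ cN b m u (U0 : ℤ) := by
    apply cnt_mono
    intro U hU hU'
    have h1 : dInt (κ * ((U : ℝ) - U0)) < 2 / (b : ℝ) ^ (2 * w) := by
      have e : κ * ((U : ℝ) - U0) = κ * (U + c) - κ * (U0 + c) := by ring
      rw [e]
      refine (dInt_sub_le _ _).trans_lt ?_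
      have : (2 : ℝ) / (b : ℝ) ^ (2 * w) = 1 / (b : ℝ) ^ (2 * w) + 1 / (b : ℝ) ^ (2 * w) := by ring
      rw [this]
      linarith
    have h2 : |(U : ℝ) - U0| ≤ (b : ℝ) ^ m := by
      have h3 : (U : ℝ) < (b : ℝ) ^ m := by exact_mod_cast DS_lt hb m U hU
      have h4 : (U0 : ℝ) < (b : ℝ) ^ m := by exact_mod_cast DS_lt hb m U0 hU0
      have h5 : (0 : ℝ) ≤ U := Nat.cast_nonneg _
      have h6 : (0 : ℝ) ≤ U0 := Nat.cast_nonneg _
      rw [abs_le]; constructor <;> linarith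
    have h3 : dInt (((q.num * ((U : ℤ) - U0) : ℤ) : ℝ) / u) < 1 / u := by
      have e : ((q.num * ((U : ℤ) - U0) : ℤ) : ℝ) / u
          = κ * ((U : ℝ) - U0) - (κ - q) * ((U : ℝ) - U0) := by
        rw [hq]; push_cast; ring
      rw [e]
      refine (dInt_sub_le _ _).trans_lt ?_
      have h4 : dInt ((κ - q) * ((U : ℝ) - U0)) ≤ 1 / (B * u) * (b : ℝ) ^ m := by
        refine (dInt_le_abs _).trans ?_
        rw [abs_mul]
        apply mul_le_mul hqB h2 (abs_nonneg _) (by positivity)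
      have h5 : 1 / (B * u) * (b : ℝ) ^ m ≤ (1 / 4) / u := by
        rw [div_mul_eq_mul_div, one_mul, div_le_div_iff₀ (by positivity) hu0]
        nlinarith
      have h6 : 2 / (b : ℝ) ^ (2 * w) ≤ (1 / 2) / u := by
        have : (b : ℝ) ^ (2 * w) = B * B := by rw [hB, ← pow_add]; congr 1; ring
        rw [this, div_le_div_iff₀ (by positivity) hu0]
        nlinarith
      have h7 : (1 : ℝ) / u = (1 / 4) / u + (1 / 2) / u + (1 / 4) / u := by ring
      have h8 : 0 < (1 / 4 : ℝ) / u := by positivity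
      linarith
    have h4 : (u : ℤ) ∣ q.num * ((U : ℤ) - U0) := by
      by_contra hnd
      have := dInt_frac u hu1 _ hnd
      linarith
    have hcop : IsCoprime (u : ℤ) q.num := by
      rw [Int.isCoprime_iff_gcd_eq_one]
      have := q.reduced
      rw [Nat.Coprime] at this
      rw [Int.gcd_comm]
      exact this
    exact hcop.dvd_of_dvd_mul_left h4
  have hcN : ρ * 2 ^ m ≤ (cN b m u (U0 : ℤ) : ℝ) := by
    refine hcnt.trans ?_
    exact_mod_cast hsub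
  have hT2 : 2 ≤ cN b m u (U0 : ℤ) := by
    have : (1 : ℝ) < (cN b m u (U0 : ℤ) : ℝ) := by linarith
    have : 1 < cN b m u (U0 : ℤ) := by exact_mod_cast this
    omega
  obtain ⟨r, v, c', hrm, hv, hcop, hdvd, hvu, hT⟩ :=
    cN_reduce hb _ hT2 u m (U0 : ℤ) hu1 le_rfl
  have hTr : ρ * 2 ^ m ≤ (cN b (m - r) v c' : ℝ) := by
    refine hcN.trans ?_
    exact_mod_cast hT
  have h2r : ρ * 2 ^ r ≤ 1 := by
    have h1 : (cN b (m - r) v c' : ℝ) ≤ 2 ^ (m - r) := by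
      exact_mod_cast cnt_le hb (m - r) _
    have h2 : (2 : ℝ) ^ m = 2 ^ (m - r) * 2 ^ r := by rw [← pow_add]; congr 1; omega
    rw [h2] at hTr
    have h3 : ρ * 2 ^ r * 2 ^ (m - r) ≤ 1 * 2 ^ (m - r) := by
      have : ρ * 2 ^ r * 2 ^ (m - r) = ρ * (2 ^ (m - r) * 2 ^ r) := by ring
      rw [this, one_mul]; linarith
    exact le_of_mul_le_mul_right h3 (by positivity)
  have hrk : r ≤ k := by
    by_contra hlt
    push Not at hlt
    have h1 : (2 : ℝ) ^ k ≤ 2 ^ r := pow_le_pow_right₀ (by norm_num) hlt.le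
    have h2 : ρ * (1 / ρ) < ρ * 2 ^ k := by gcongr
    have h3 : ρ * (1 / ρ) = 1 := by field_simp
    have h4 : ρ * 2 ^ k ≤ ρ * 2 ^ r := by gcongr
    linarith
  have huk : u ≤ b ^ k := by
    by_contra hlt
    push Not at hlt
    have h1 := cN_le_of_large hb k (m - k) u (U0 : ℤ) hlt
    have e : k + (m - k) = m := by omega
    rw [e] at h1
    have h2 : (cN b m u (U0 : ℤ) : ℝ) ≤ 2 ^ (m - k) := by exact_mod_cast h1
    have h3 : (2 : ℝ) ^ m = 2 ^ (m - k) * 2 ^ k := by rw [← pow_add]; congr 1; omega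
    have h4 : ρ * 2 ^ k * 2 ^ (m - k) ≤ 1 * 2 ^ (m - k) := by
      have : ρ * 2 ^ k * 2 ^ (m - k) = ρ * (2 ^ (m - k) * 2 ^ k) := by ring
      rw [this, one_mul, ← h3]; linarith
    have h5 : ρ * 2 ^ k ≤ 1 := le_of_mul_le_mul_right h4 (by positivity)
    have h6 : ρ * (1 / ρ) < ρ * 2 ^ k := by gcongr
    have h7 : ρ * (1 / ρ) = 1 := by field_simp
    linarith
  have hvk : v ≤ b ^ k := (Nat.le_of_dvd (by omega) hvu).trans huk
  have hRk : R * k ≤ m - r := by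
    have : k * (R + 1) = R * k + k := by ring
    omega
  have hfour := cN_fourier hb v hv hcop k R (m - r) hvk hRk c'
  have hv0 : (0 : ℝ) < v := by exact_mod_cast hv
  have hv2 : (v : ℝ) ≤ 2 / ρ := by
    have h1 : ρ * 2 ^ m ≤ 2 ^ (m - r) * (1 / v + th b ^ R) := hTr.trans hfour
    have h2 : (2 : ℝ) ^ (m - r) ≤ 2 ^ m := pow_le_pow_right₀ (by norm_num) (by omega)
    have h3 : 0 ≤ 1 / (v : ℝ) + th b ^ R := by
      have := pow_nonneg (th_pos hb).le R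
      positivity
    have h4 : 2 ^ (m - r) * (1 / (v : ℝ) + th b ^ R) ≤ 2 ^ m * (1 / v + th b ^ R) := by gcongr
    have h5 : 2 ^ m * ρ ≤ 2 ^ m * (1 / (v : ℝ) + th b ^ R) := by
      rw [mul_comm]; linarith
    have h6 : ρ ≤ 1 / (v : ℝ) + th b ^ R := le_of_mul_le_mul_left h5 (by positivity)
    have h7 : ρ / 2 ≤ 1 / (v : ℝ) := by linarith
    rw [le_div_iff₀ hρ]
    rw [div_le_div_iff₀ (by norm_num) hv0] at h7
    linarith
  obtain ⟨t, ht⟩ := hdvd
  refine ⟨v, r, t * q.num, hv, hv2, hrk, ?_⟩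
  have hbt : (b : ℝ) ^ r * v = u * t := by exact_mod_cast ht
  rw [hbt]
  have e : (u : ℝ) * t * κ - ((t * q.num : ℤ) : ℝ) = (u * t) * (κ - q) := by
    rw [hq]; push_cast; field_simp
  rw [e, abs_mul, abs_of_nonneg (by positivity : (0 : ℝ) ≤ u * t)]
  calc (u : ℝ) * t * |κ - q| ≤ u * t * (1 / (B * u)) := by gcongr
    _ = t / B := by field_simp
    _ ≤ u * t / B := by
        apply div_le_div_of_nonneg_right _ hB0.le
        have : (1 : ℝ) ≤ u := by exact_mod_cast hu1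
        have h0 : (0 : ℝ) ≤ t := Nat.cast_nonneg _
        nlinarith

/-- there is a positive zero-one integer below `b^Q` divisible by `Q` -/
lemma exists_dvd {b : ℕ} (hb : 2 ≤ b) (Q : ℕ) (hQ : 1 ≤ Q) :
    ∃ F : Finset ℕ, F.Nonempty ∧ F ⊆ range Q ∧ Q ∣ ∑ i ∈ F, b ^ i := by
  classical
  obtain ⟨x, hx, y, hy, hxy, heq⟩ := exists_ne_map_eq_of_card_lt_of_maps_to
    (s := range (Q + 1)) (t := range Q) (f := fun k => (∑ i ∈ range k, b ^ i) % Q) (by simp)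
    (by
      intro k _
      simp only [coe_range, Set.mem_Iio]
      exact Nat.mod_lt _ hQ)
  wlog hlt : x < y generalizing x y with H
  · exact H y hy x hx (Ne.symm hxy) heq.symm (by omega)
  refine ⟨range y \ range x, ?_, ?_, ?_⟩
  · refine ⟨x, ?_⟩
    rw [mem_sdiff, mem_range, mem_range]
    omega
  · intro i hi
    rw [mem_sdiff, mem_range, mem_range] at hi
    have := mem_range.mp hy
    rw [mem_range]; omega
  · have h1 : ∑ i ∈ range y, b ^ i = ∑ i ∈ range y \ range x, b ^ i + ∑ i ∈ range x, b ^ i :=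
      (sum_sdiff (range_subset_range.mpr hlt.le)).symm
    have h2 : ∑ i ∈ range x, b ^ i ≡ ∑ i ∈ range y, b ^ i [MOD Q] := heq
    rw [h1] at h2
    have h3 : 0 + ∑ i ∈ range x, b ^ i ≡ ∑ i ∈ range y \ range x, b ^ i + ∑ i ∈ range x, b ^ i [MOD Q] := by
      rw [zero_add]; exact h2
    have h4 := Nat.ModEq.add_right_cancel' _ h3
    exact (Nat.modEq_zero_iff_dvd.mp h4.symm)

lemma extract {b : ℕ} (hb : 2 ≤ b) (γ : ℝ) (h v r j w : ℕ) (A : ℤ) (hh : 1 ≤ h) (hv : 1 ≤ v)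
    (happ : |(b : ℝ) ^ r * v * (2 * (h * γ) * (b : ℝ) ^ j) - A| ≤ (b : ℝ) ^ r * v / (b : ℝ) ^ w) :
    ∃ F : Finset ℕ, F.Nonempty ∧ F ⊆ range ((j + r + 1) / 2 + 2 * h * v) ∧
      dInt (γ * ((∑ i ∈ F, b ^ i : ℕ) : ℝ) ^ 2) ≤ (b : ℝ) ^ (1 + 2 * (2 * h * v) + r) / (b : ℝ) ^ w := by
  classical
  have hb1 : (2 : ℝ) ≤ b := by exact_mod_cast hb
  have hb0 : (0 : ℝ) < b := by linarith
  set Q := 2 * h * v with hQdef
  have hQ : 1 ≤ Q := by
    have : 1 ≤ h * v := Nat.one_le_iff_ne_zero.mpr (by positivity)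
    rw [hQdef]; nlinarith
  obtain ⟨F, hF, hFQ, s2, hs2⟩ := exists_dvd hb Q hQ
  set e := (j + r + 1) / 2 with he
  refine ⟨F.map (addRightEmbedding e), hF.map, ?_, ?_⟩
  · intro i hi
    rw [mem_map] at hi
    obtain ⟨k, hk, rfl⟩ := hi
    have := mem_range.mp (hFQ hk)
    rw [mem_range]
    simp only [addRightEmbedding_apply]
    omega
  · set s1 := ∑ i ∈ F, b ^ i with hs1
    have hsum : ∑ i ∈ F.map (addRightEmbedding e), b ^ i = b ^ e * s1 := by
      rw [sum_map, hs1, mul_sum]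
      apply sum_congr rfl
      intro i _
      simp only [addRightEmbedding_apply]
      rw [pow_add, mul_comm]
    rw [hsum]
    have hs1lt : s1 ≤ b ^ Q := by
      have : s1 ∈ DS b Q := (mem_DS_iff Q s1).mpr ⟨F, hFQ, rfl⟩
      exact (DS_lt hb Q s1 this).le
    obtain ⟨ε, hε, hε2⟩ : ∃ ε : ℕ, 2 * e = j + r + ε ∧ ε ≤ 1 := by
      refine ⟨2 * e - (j + r), ?_, ?_⟩ <;> omega
    set X : ℝ := (b : ℝ) ^ r * v * (2 * (h * γ) * (b : ℝ) ^ j) with hX
    have hs1Q : (s1 : ℝ) = Q * s2 := by exact_mod_cast hs2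
    have hQr : (Q : ℝ) = 2 * h * v := by rw [hQdef]; push_cast; ring
    have hmain : γ * ((b ^ e * s1 : ℕ) : ℝ) ^ 2 = ((b : ℝ) ^ ε * s2 * s1) * X := by
      have e1 : ((b ^ e * s1 : ℕ) : ℝ) ^ 2 = (b : ℝ) ^ (2 * e) * (s1 : ℝ) ^ 2 := by
        push_cast; ring
      rw [e1, hε, hX]
      have e2 : (s1 : ℝ) ^ 2 = (2 * h * v * s2) * s1 := by rw [sq]; nth_rw 1 [hs1Q, hQr]
      rw [e2, pow_add, pow_add]; ring
    rw [hmain]
    have h1 := dInt_le (((b : ℝ) ^ ε * s2 * s1) * X) ((b ^ ε * s2 * s1 : ℕ) * A)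
    refine h1.trans ?_
    have e3 : ((b : ℝ) ^ ε * s2 * s1) * X - (((b ^ ε * s2 * s1 : ℕ) * A : ℤ) : ℝ)
        = ((b : ℝ) ^ ε * s2 * s1) * (X - A) := by push_cast; ring
    rw [e3, abs_mul, abs_of_nonneg (by positivity : (0 : ℝ) ≤ (b : ℝ) ^ ε * s2 * s1)]
    have hs1r : (s1 : ℝ) ≤ (b : ℝ) ^ Q := by exact_mod_cast hs1lt
    have hvs : (s2 : ℝ) * v ≤ (b : ℝ) ^ Q := by
      refine le_trans ?_ hs1r
      rw [hs1Q, hQr]
      have h2 : (1 : ℝ) ≤ h := by exact_mod_cast hh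
      have h3 : (0 : ℝ) ≤ s2 * v := by positivity
      nlinarith
    have hbe : (b : ℝ) ^ ε ≤ (b : ℝ) ^ 1 := pow_le_pow_right₀ (by linarith) hε2
    calc (b : ℝ) ^ ε * s2 * s1 * |X - A|
        ≤ (b : ℝ) ^ ε * s2 * s1 * ((b : ℝ) ^ r * v / (b : ℝ) ^ w) := by gcongr
      _ = ((b : ℝ) ^ ε * (s2 * v) * s1) * (b : ℝ) ^ r / (b : ℝ) ^ w := by ring
      _ ≤ ((b : ℝ) ^ 1 * (b : ℝ) ^ Q * (b : ℝ) ^ Q) * (b : ℝ) ^ r / (b : ℝ) ^ w := by
          gcongr
      _ = (b : ℝ) ^ (1 + 2 * Q + r) / (b : ℝ) ^ w := by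
          congr 1
          rw [← pow_add, ← pow_add, ← pow_add]
          congr 1
          ring

end Pool.Agent.Helper29_HSet
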