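import Mathlib

/-!
Basic facts: distance to the nearest integer, additive characters, sums over
base-`b` zero-one integers.
-/

set_option autoImplicit false

namespace Pool.Agent.Helper29_HSet

open Finset

/-- distance to the nearest integer -/
noncomputable def dInt (x : ℝ) : ℝ := |x - round x|

lemma dInt_nonneg (x : ℝ) : 0 ≤ dInt x := abs_nonneg _

lemma dInt_le_half (x : ℝ) : dInt x ≤ 1 / 2 := abs_sub_round x

lemma dInt_le (x : ℝ) (n : ℤ) : dInt x ≤ |x - n| := round_le x n

lemma dInt_le_abs (x : ℝ) : dInt x ≤ |x| := by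
  simpa using dInt_le x 0

lemma dInt_add_le (x y : ℝ) : dInt (x + y) ≤ dInt x + dInt y := by
  have h := dInt_le (x + y) (round x + round y)
  refine h.trans ?_
  have : x + y - ((round x + round y : ℤ) : ℝ) = (x - round x) + (y - round y) := by
    push_cast; ring
  rw [this]
  exact abs_add_le _ _

lemma dInt_neg (x : ℝ) : dInt (-x) = dInt x := by
  apply le_antisymm
  · have h := dInt_le (-x) (-round x)
    refine h.trans (le_of_eq ?_)
    unfold dInt
    rw [← abs_neg]
    congr 1
    push_cast; ring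
  · have h := dInt_le x (-round (-x))
    refine h.trans (le_of_eq ?_)
    unfold dInt
    rw [← abs_neg]
    congr 1
    push_cast; ring

lemma dInt_sub_le (x y : ℝ) : dInt (x - y) ≤ dInt x + dInt y := by
  rw [sub_eq_add_neg]
  refine (dInt_add_le _ _).trans ?_
  rw [dInt_neg]

lemma dInt_add_int (x : ℝ) (n : ℤ) : dInt (x + n) = dInt x := by
  apply le_antisymm
  · have h := dInt_le (x + n) (round x + n)
    refine h.trans (le_of_eq ?_)
    unfold dInt
    congr 1
    push_cast; ring
  · have h := dInt_le x (round (x + n) - n)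
    refine h.trans (le_of_eq ?_)
    unfold dInt
    congr 1
    push_cast; ring

lemma dInt_mul_of_le {b : ℕ} (x : ℝ) (h : (b : ℝ) * dInt x ≤ 1 / 2) :
    dInt (b * x) = b * dInt x := by
  apply le_antisymm
  · have h1 := dInt_le (b * x) (b * round x)
    refine h1.trans (le_of_eq ?_)
    unfold dInt
    have : (b : ℝ) * x - ((b * round x : ℤ) : ℝ) = b * (x - round x) := by push_cast; ring
    rw [this, abs_mul, Nat.abs_cast]
  · -- the nearest integer to b x is b * round x
    by_contra hlt
    push Not at hlt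
    have h2 : |(b : ℝ) * x - ((b * round x : ℤ) : ℝ)| ≤ 1 / 2 := by
      have : (b : ℝ) * x - ((b * round x : ℤ) : ℝ) = b * (x - round x) := by push_cast; ring
      rw [this, abs_mul, Nat.abs_cast]
      exact h
    have h3 : |((round ((b : ℝ) * x) : ℤ) : ℝ) - ((b * round x : ℤ) : ℝ)| < 1 := by
      have e1 : ((round ((b : ℝ) * x) : ℤ) : ℝ) - ((b * round x : ℤ) : ℝ)
          = ((b : ℝ) * x - ((b * round x : ℤ) : ℝ)) - ((b : ℝ) * x - (round ((b : ℝ) * x) : ℤ)) := by
        ring
      rw [e1]
      have h4 : |(b : ℝ) * x - ((b * round x : ℤ) : ℝ)| = b * dInt x := by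
        have : (b : ℝ) * x - ((b * round x : ℤ) : ℝ) = b * (x - round x) := by push_cast; ring
        rw [this, abs_mul, Nat.abs_cast]; rfl
      have h5 : |(b : ℝ) * x - (round ((b : ℝ) * x) : ℤ)| = dInt (b * x) := rfl
      have := abs_sub (((b : ℝ) * x - ((b * round x : ℤ) : ℝ))) ((b : ℝ) * x - (round ((b : ℝ) * x) : ℤ))
      rw [h4, h5] at this
      refine lt_of_le_of_lt this ?_
      linarith
    have h6 : round ((b : ℝ) * x) = b * round x := by
      have : |(round ((b : ℝ) * x) - b * round x : ℤ)| < 1 := by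
        have h7 : ((|(round ((b : ℝ) * x) - b * round x : ℤ)| : ℤ) : ℝ) < 1 := by
          rw [Int.cast_abs]; push_cast; push_cast at h3; exact h3
        exact_mod_cast h7
      have := Int.abs_lt_one_iff.mp this
      omega
    have h8 : dInt (b * x) = b * dInt x := by
      unfold dInt
      rw [h6]
      have : (b : ℝ) * x - ((b * round x : ℤ) : ℝ) = b * (x - round x) := by push_cast; ring
      rw [this, abs_mul, Nat.abs_cast]
    linarith

/-- additive character `e(x) = exp(2 π i x)` -/
noncomputable def ex (x : ℝ) : ℂ := Complex.exp (((2 * Real.pi * x : ℝ) : ℂ) * Complex.I)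

lemma norm_ex (x : ℝ) : ‖ex x‖ = 1 := by
  unfold ex; exact Complex.norm_exp_ofReal_mul_I _

lemma ex_add (x y : ℝ) : ex (x + y) = ex x * ex y := by
  unfold ex
  rw [← Complex.exp_add]
  congr 1
  push_cast; ring

lemma ex_zero : ex 0 = 1 := by simp [ex]

lemma ex_int (n : ℤ) : ex n = 1 := by
  unfold ex
  have : (((2 * Real.pi * (n : ℝ) : ℝ) : ℂ) * Complex.I) = n * (2 * Real.pi * Complex.I) := by
    push_cast; ring
  rw [this]
  exact Complex.exp_int_mul_two_pi_mul_I n

lemma ex_add_int (x : ℝ) (n : ℤ) : ex (x + n) = ex x := by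
  rw [ex_add, ex_int, mul_one]

lemma conj_ex (x : ℝ) : (starRingEnd ℂ) (ex x) = ex (-x) := by
  unfold ex
  rw [← Complex.exp_conj]
  congr 1
  rw [map_mul, Complex.conj_I, Complex.conj_ofReal]
  push_cast; ring

lemma ex_re (x : ℝ) : (ex x).re = Real.cos (2 * Real.pi * x) := by
  unfold ex
  rw [Complex.exp_ofReal_mul_I_re]

lemma ex_im (x : ℝ) : (ex x).im = Real.sin (2 * Real.pi * x) := by
  unfold ex
  rw [Complex.exp_ofReal_mul_I_im]

lemma norm_one_add_ex (x : ℝ) : ‖1 + ex x‖ = 2 * |Real.cos (Real.pi * x)| := by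
  have h1 : 1 + ex x = ex (x / 2) * ((2 * Real.cos (Real.pi * x) : ℝ) : ℂ) := by
    have hx : ex x = ex (x / 2) * ex (x / 2) := by rw [← ex_add]; congr 1; ring
    have h0 : (1 : ℂ) = ex (x / 2) * ex (-(x / 2)) := by
      rw [← ex_add, add_neg_cancel, ex_zero]
    have h2 : ex (-(x/2)) + ex (x / 2) = ((2 * Real.cos (Real.pi * x) : ℝ) : ℂ) := by
      apply Complex.ext
      · rw [Complex.add_re, ex_re, ex_re, Complex.ofReal_re]
        have a1 : 2 * Real.pi * (-(x / 2)) = -(Real.pi * x) := by ring
        have a2 : 2 * Real.pi * (x / 2) = Real.pi * x := by ring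
        rw [a1, a2, Real.cos_neg]; ring
      · rw [Complex.add_im, ex_im, ex_im, Complex.ofReal_im]
        have a1 : 2 * Real.pi * (-(x / 2)) = -(Real.pi * x) := by ring
        have a2 : 2 * Real.pi * (x / 2) = Real.pi * x := by ring
        rw [a1, a2, Real.sin_neg]; ring
    rw [← h2, mul_add, ← hx, ← h0]
  rw [h1, norm_mul, norm_ex, one_mul, Complex.norm_real, Real.norm_eq_abs, abs_mul]
  simp

lemma abs_cos_pi_eq (x : ℝ) : |Real.cos (Real.pi * x)| = Real.cos (Real.pi * dInt x) := by
  have h1 : Real.cos (Real.pi * x) = Real.cos (Real.pi * (x - round x) + (round x : ℤ) * Real.pi) := by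
    congr 1; ring
  have h2 : |Real.cos (Real.pi * x)| = |Real.cos (Real.pi * (x - round x))| := by
    rw [h1, Real.cos_add_int_mul_pi, abs_mul]
    simp
  rw [h2]
  have h3 : |Real.cos (Real.pi * (x - round x))| = |Real.cos (Real.pi * dInt x)| := by
    unfold dInt
    rcases abs_cases (x - round x) with ⟨h, _⟩ | ⟨h, _⟩
    · rw [h]
    · rw [h]
      have : Real.pi * -(x - round x) = -(Real.pi * (x - round x)) := by ring
      rw [this, Real.cos_neg]
  rw [h3, abs_of_nonneg]
  apply Real.cos_nonneg_of_neg_pi_div_two_le_of_le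
  · have := dInt_nonneg x
    have := Real.pi_pos
    nlinarith
  · have := dInt_le_half x
    have := Real.pi_pos
    nlinarith

lemma abs_cos_pi_le (x : ℝ) : |Real.cos (Real.pi * x)| ≤ 1 - 2 * dInt x ^ 2 := by
  rw [abs_cos_pi_eq]
  have h0 := dInt_nonneg x
  have h1 := dInt_le_half x
  have hpi := Real.pi_pos
  have h2 : Real.cos (Real.pi * dInt x) = 1 - 2 * Real.sin (Real.pi * dInt x / 2) ^ 2 := by
    have := Real.cos_sq' (Real.pi * dInt x / 2)
    have h3 := Real.cos_two_mul (Real.pi * dInt x / 2)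
    have h4 : 2 * (Real.pi * dInt x / 2) = Real.pi * dInt x := by ring
    rw [h4] at h3
    rw [h3, this]; ring
  rw [h2]
  have h3 : dInt x ≤ Real.sin (Real.pi * dInt x / 2) := by
    have := Real.mul_le_sin (x := Real.pi * dInt x / 2) (by positivity) (by nlinarith)
    refine le_trans (le_of_eq ?_) this
    field_simp
  nlinarith

end Pool.Agent.Helper29_HSet
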