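import Pool.Agent.Helper29_HSet.Basic

/-!
Finite sets of base-`b` zero-one integers and sums over them.
-/

set_option autoImplicit false

namespace Pool.Agent.Helper29_HSet

open Finset

/-- zero-one integers in base `b` with at most `m` digits (zero included) -/
def DS (b : ℕ) : ℕ → Finset ℕ
  | 0 => {0}
  | m + 1 => DS b m ∪ (DS b m).image (fun x => x + b ^ m)

lemma DS_lt {b : ℕ} (hb : 2 ≤ b) (m : ℕ) : ∀ x ∈ DS b m, x < b ^ m := by
  induction m with
  | zero =>
    intro x hx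
    simp [DS] at hx
    simp [hx]
  | succ m ih =>
    intro x hx
    have h1 : b ^ (m + 1) = b * b ^ m := by ring
    have h2 : 2 * b ^ m ≤ b * b ^ m := Nat.mul_le_mul_right _ hb
    rw [DS, mem_union, mem_image] at hx
    rcases hx with hx | ⟨y, hy, rfl⟩
    · have := ih x hx
      omega
    · have := ih y hy
      omega

lemma DS_disjoint {b : ℕ} (hb : 2 ≤ b) (m : ℕ) :
    Disjoint (DS b m) ((DS b m).image (fun x => x + b ^ m)) := by
  rw [Finset.disjoint_left]
  intro x hx hx'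
  rw [mem_image] at hx'
  obtain ⟨y, _, rfl⟩ := hx'
  have := DS_lt hb m _ hx
  omega

lemma sum_DS_zero {E : Type*} [AddCommMonoid E] (b : ℕ) (g : ℕ → E) :
    ∑ x ∈ DS b 0, g x = g 0 := by simp [DS]

lemma sum_DS_succ {E : Type*} [AddCommMonoid E] {b : ℕ} (hb : 2 ≤ b) (m : ℕ) (g : ℕ → E) :
    ∑ x ∈ DS b (m + 1), g x = ∑ x ∈ DS b m, g x + ∑ x ∈ DS b m, g (x + b ^ m) := by
  rw [DS, sum_union (DS_disjoint hb m), sum_image]
  intro x _ y _ h
  simpa using h

lemma card_DS {b : ℕ} (hb : 2 ≤ b) (m : ℕ) : (DS b m).card = 2 ^ m := by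
  induction m with
  | zero => simp [DS]
  | succ m ih =>
    have := sum_DS_succ hb m (fun _ => (1 : ℕ))
    simp only [sum_const, smul_eq_mul, mul_one] at this
    rw [this, ih]; ring

lemma sum_DS_add {E : Type*} [AddCommMonoid E] {b : ℕ} (hb : 2 ≤ b) (m n : ℕ) (g : ℕ → E) :
    ∑ x ∈ DS b (m + n), g x = ∑ y ∈ DS b n, ∑ x ∈ DS b m, g (x + b ^ m * y) := by
  induction n generalizing g with
  | zero => simp [sum_DS_zero]
  | succ n ih =>
    rw [← add_assoc, sum_DS_succ hb (m + n), sum_DS_succ hb n, ih, ih]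
    congr 1
    apply sum_congr rfl
    intro y _
    apply sum_congr rfl
    intro x _
    congr 1
    ring

lemma zero_mem_DS (b m : ℕ) : 0 ∈ DS b m := by
  induction m with
  | zero => simp [DS]
  | succ m ih =>
    rw [DS, mem_union]; exact Or.inl ih

lemma mem_DS_iff {b : ℕ} (m : ℕ) (x : ℕ) :
    x ∈ DS b m ↔ ∃ F ⊆ range m, x = ∑ i ∈ F, b ^ i := by
  induction m generalizing x with
  | zero =>
    simp [DS]
  | succ m ih =>
    rw [DS, mem_union, mem_image]
    constructor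
    · rintro (h | ⟨y, hy, rfl⟩)
      · obtain ⟨F, hF, rfl⟩ := (ih x).mp h
        exact ⟨F, hF.trans (range_subset_range.mpr (Nat.le_succ m)), rfl⟩
      · obtain ⟨F, hF, rfl⟩ := (ih y).mp hy
        refine ⟨insert m F, ?_, ?_⟩
        · rw [range_add_one]
          exact insert_subset_insert _ hF
        · rw [sum_insert, add_comm]
          intro hm
          have := mem_range.mp (hF hm)
          omega
    · rintro ⟨F, hF, rfl⟩
      by_cases hm : m ∈ F
      · right
        refine ⟨∑ i ∈ F.erase m, b ^ i, ?_, ?_⟩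
        · rw [ih]
          refine ⟨F.erase m, ?_, rfl⟩
          intro i hi
          have h1 := mem_erase.mp hi
          have h2 := mem_range.mp (hF h1.2)
          rw [mem_range]
          omega
        · exact sum_erase_add _ _ hm
      · left
        rw [ih]
        refine ⟨F, ?_, rfl⟩
        intro i hi
        have h2 := mem_range.mp (hF hi)
        rw [mem_range]
        have : i ≠ m := by rintro rfl; exact hm hi
        omega

lemma sum_DS_ex {b : ℕ} (hb : 2 ≤ b) (m : ℕ) (z : ℝ) :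
    ∑ x ∈ DS b m, ex (z * x) = ∏ j ∈ range m, (1 + ex (z * (b : ℝ) ^ j)) := by
  induction m with
  | zero => simp [sum_DS_zero, ex_zero]
  | succ m ih =>
    rw [sum_DS_succ hb, prod_range_succ, ← ih, mul_add, mul_one]
    congr 1
    rw [sum_mul]
    apply sum_congr rfl
    intro x _
    rw [← ex_add]
    congr 1
    push_cast
    ring

lemma norm_sum_DS_ex {b : ℕ} (hb : 2 ≤ b) (m : ℕ) (z : ℝ) :
    ‖∑ x ∈ DS b m, ex (z * x)‖
      = 2 ^ m * ∏ j ∈ range m, |Real.cos (Real.pi * ((b : ℝ) ^ j * z))| := by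
  rw [sum_DS_ex hb, norm_prod]
  have : ∀ j ∈ range m, ‖1 + ex (z * (b : ℝ) ^ j)‖
      = 2 * |Real.cos (Real.pi * ((b : ℝ) ^ j * z))| := by
    intro j _
    rw [norm_one_add_ex, mul_comm z]
  rw [prod_congr rfl this, prod_mul_distrib, prod_const, card_range]

/-- contraction factor -/
noncomputable def th (b : ℕ) : ℝ := 1 - 1 / (2 * (b : ℝ) ^ 2)

lemma th_pos {b : ℕ} (hb : 2 ≤ b) : 0 < th b := by
  unfold th
  have h1 : (2 : ℝ) ≤ b := by exact_mod_cast hb
  have h2 : (4 : ℝ) ≤ (b : ℝ) ^ 2 := by nlinarith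
  have h3 : 1 / (2 * (b : ℝ) ^ 2) ≤ 1 / (2 * 4) := by
    apply one_div_le_one_div_of_le (by norm_num); linarith
  have : (1 : ℝ) / (2 * 4) < 1 := by norm_num
  linarith

lemma th_lt_one {b : ℕ} (hb : 2 ≤ b) : th b < 1 := by
  unfold th
  have h1 : (2 : ℝ) ≤ b := by exact_mod_cast hb
  have : 0 < 1 / (2 * (b : ℝ) ^ 2) := by positivity
  linarith

/-- if `β` is not too close to an integer then some multiple `b^k β` with `k` small is far -/
lemma exists_far {b : ℕ} (hb : 2 ≤ b) (W : ℕ) (β : ℝ) (hβ : 1 / (b : ℝ) ^ W ≤ dInt β) :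
    ∃ k < W, |Real.cos (Real.pi * ((b : ℝ) ^ k * β))| ≤ th b := by
  have hb1 : (2 : ℝ) ≤ b := by exact_mod_cast hb
  have hb0 : (0 : ℝ) < b := by linarith
  by_contra hcon
  push Not at hcon
  have hclose : ∀ k < W, dInt ((b : ℝ) ^ k * β) < 1 / (2 * b) := by
    intro k hk
    have h1 := hcon k hk
    have h2 := abs_cos_pi_le ((b : ℝ) ^ k * β)
    unfold th at h1
    have h3 : 2 * dInt ((b : ℝ) ^ k * β) ^ 2 < 1 / (2 * (b : ℝ) ^ 2) := by linarith
    by_contra hge
    push Not at hge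
    have h4 : (1 / (2 * (b : ℝ))) ^ 2 ≤ dInt ((b : ℝ) ^ k * β) ^ 2 := by
      apply pow_le_pow_left₀ (by positivity) hge
    have h5 : (1 / (2 * (b : ℝ))) ^ 2 = (1 / (2 * (b : ℝ) ^ 2)) / 2 := by
      field_simp
    rw [h5] at h4
    linarith
  have hpow : ∀ k ≤ W, dInt ((b : ℝ) ^ k * β) = (b : ℝ) ^ k * dInt β := by
    intro k
    induction k with
    | zero => intro _; simp
    | succ k ih =>
      intro hk
      have h1 := ih (by omega)
      have h2 := hclose k (by omega)
      have h3 : (b : ℝ) * dInt ((b : ℝ) ^ k * β) ≤ 1 / 2 := by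
        have : (b : ℝ) * dInt ((b : ℝ) ^ k * β) ≤ b * (1 / (2 * b)) := by gcongr
        refine this.trans (le_of_eq ?_)
        field_simp
      have h4 := dInt_mul_of_le _ h3
      have h5 : (b : ℝ) ^ (k + 1) * β = b * ((b : ℝ) ^ k * β) := by ring
      rw [h5, h4, h1]; ring
  have h1 := hpow W le_rfl
  have h2 := dInt_le_half ((b : ℝ) ^ W * β)
  rw [h1] at h2
  have h3 : (b : ℝ) ^ W * (1 / (b : ℝ) ^ W) ≤ (b : ℝ) ^ W * dInt β := by gcongr
  have h4 : (b : ℝ) ^ W * (1 / (b : ℝ) ^ W) = 1 := by field_simp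
  linarith

lemma prod_window (f : ℕ → ℝ) (h0 : ∀ j, 0 ≤ f j) (h1 : ∀ j, f j ≤ 1) (W : ℕ) (t : ℝ) (ht : 0 ≤ t)
    (R : ℕ) (hR : ∀ r < R, ∃ k < W, f (r * W + k) ≤ t) :
    ∏ j ∈ range (R * W), f j ≤ t ^ R := by
  induction R with
  | zero => simp
  | succ R ih =>
    have hih := ih (fun r hr => hR r (by omega))
    obtain ⟨k, hk, hfk⟩ := hR R (by omega)
    have e : (R + 1) * W = R * W + W := by ring
    rw [e, prod_range_add, pow_succ]
    apply mul_le_mul hih _ (prod_nonneg (fun j _ => h0 _)) (pow_nonneg ht _)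
    rw [← mul_prod_erase (range W) _ (mem_range.mpr hk)]
    calc f (R * W + k) * ∏ x ∈ (range W).erase k, f (R * W + x)
        ≤ f (R * W + k) * 1 := by
          apply mul_le_mul_of_nonneg_left _ (h0 _)
          apply prod_le_one
          · intro j _; exact h0 _
          · intro j _; exact h1 _
      _ ≤ t := by linarith

/-- product bound when all window starts are far from integers -/
lemma prod_cos_le {b : ℕ} (hb : 2 ≤ b) (W R : ℕ) (β : ℝ)
    (h : ∀ r < R, 1 / (b : ℝ) ^ W ≤ dInt ((b : ℝ) ^ (r * W) * β)) :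
    ∏ j ∈ range (R * W), |Real.cos (Real.pi * ((b : ℝ) ^ j * β))| ≤ th b ^ R := by
  apply prod_window _ (fun j => abs_nonneg _) (fun j => Real.abs_cos_le_one _) W _ (th_pos hb).le
  intro r hr
  obtain ⟨k, hk, hfar⟩ := exists_far hb W _ (h r hr)
  refine ⟨k, hk, ?_⟩
  have : (b : ℝ) ^ (r * W + k) * β = (b : ℝ) ^ k * ((b : ℝ) ^ (r * W) * β) := by ring
  rw [this]; exact hfar

end Pool.Agent.Helper29_HSet
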