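import Pool.Agent.Helper29_HSet.DSet

/-!
Zero-one integers in residue classes; rational approximation.
-/

set_option autoImplicit false

namespace Pool.Agent.Helper29_HSet

open Finset

open Classical in
/-- counting function -/
noncomputable def cnt (b m : ℕ) (p : ℕ → Prop) : ℕ := ((DS b m).filter p).card

open Classical in
lemma cnt_eq_sum (b m : ℕ) (p : ℕ → Prop) :
    cnt b m p = ∑ x ∈ DS b m, if p x then 1 else 0 := by
  unfold cnt
  rw [card_filter]

lemma cnt_add {b : ℕ} (hb : 2 ≤ b) (m n : ℕ) (p : ℕ → Prop) :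
    cnt b (m + n) p = ∑ y ∈ DS b n, cnt b m (fun x => p (x + b ^ m * y)) := by
  classical
  rw [cnt_eq_sum, sum_DS_add hb]
  apply sum_congr rfl
  intro y _
  rw [cnt_eq_sum]

lemma cnt_mono (b m : ℕ) {p q : ℕ → Prop} (h : ∀ x ∈ DS b m, p x → q x) :
    cnt b m p ≤ cnt b m q := by
  classical
  unfold cnt
  apply card_le_card
  intro x hx
  rw [mem_filter] at hx ⊢
  exact ⟨hx.1, h x hx.1 hx.2⟩

lemma cnt_le {b : ℕ} (hb : 2 ≤ b) (m : ℕ) (p : ℕ → Prop) : cnt b m p ≤ 2 ^ m := by
  classical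
  unfold cnt
  rw [← card_DS hb m]
  exact card_filter_le _ _

lemma cnt_le_one (b m : ℕ) (p : ℕ → Prop)
    (h : ∀ x ∈ DS b m, ∀ x' ∈ DS b m, p x → p x' → x = x') : cnt b m p ≤ 1 := by
  classical
  unfold cnt
  rw [card_le_one]
  intro x hx x' hx'
  rw [mem_filter] at hx hx'
  exact h x hx.1 x' hx'.1 hx.2 hx'.2

lemma cnt_eq_zero (b m : ℕ) (p : ℕ → Prop) (h : ∀ x ∈ DS b m, ¬ p x) : cnt b m p = 0 := by
  classical
  unfold cnt
  rw [card_eq_zero, filter_eq_empty_iff]
  exact h

lemma cnt_pigeon {b : ℕ} (hb : 2 ≤ b) (m n : ℕ) (p : ℕ → Prop) (ρ : ℝ)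
    (h : ρ * 2 ^ (m + n) ≤ cnt b (m + n) p) :
    ∃ y ∈ DS b n, ρ * 2 ^ m ≤ cnt b m (fun x => p (x + b ^ m * y)) := by
  by_contra hcon
  push Not at hcon
  rw [cnt_add hb] at h
  push_cast at h
  have h1 : ∑ y ∈ DS b n, (cnt b m (fun x => p (x + b ^ m * y)) : ℝ) < ∑ y ∈ DS b n, ρ * 2 ^ m := by
    apply sum_lt_sum_of_nonempty ⟨0, zero_mem_DS b n⟩
    intro y hy
    exact hcon y hy
  rw [sum_const, card_DS hb, nsmul_eq_mul] at h1
  push_cast at h1
  have : (2 : ℝ) ^ n * (ρ * 2 ^ m) = ρ * 2 ^ (m + n) := by rw [pow_add]; ring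
  rw [this] at h1
  linarith

/-- number of zero-one integers in a residue class -/
noncomputable def cN (b m u : ℕ) (c : ℤ) : ℕ := cnt b m (fun x => (u : ℤ) ∣ (x : ℤ) - c)

lemma cN_le_of_large {b : ℕ} (hb : 2 ≤ b) (k n u : ℕ) (c : ℤ) (hu : b ^ k < u) :
    cN b (k + n) u c ≤ 2 ^ n := by
  classical
  unfold cN
  rw [cnt_add hb]
  calc ∑ y ∈ DS b n, cnt b k (fun x => (u : ℤ) ∣ ((x + b ^ k * y : ℕ) : ℤ) - c)
      ≤ ∑ y ∈ DS b n, 1 := by
        apply sum_le_sum
        intro y _
        apply cnt_le_one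
        intro x hx x' hx' hp hp'
        have h1 := dvd_sub hp hp'
        have h2 := DS_lt hb k x hx
        have h3 := DS_lt hb k x' hx'
        have h4 : ((x + b ^ k * y : ℕ) : ℤ) - c - (((x' + b ^ k * y : ℕ) : ℤ) - c) = (x : ℤ) - x' := by
          push_cast; ring
        rw [h4] at h1
        have h5 : |(x : ℤ) - x'| < u := by
          rw [abs_lt]; constructor <;> omega
        have h6 := Int.eq_zero_of_abs_lt_dvd h1 h5
        omega
    _ = 2 ^ n := by simp [card_DS hb]

lemma cN_gcd_step {b : ℕ} (hb : 2 ≤ b) (m u : ℕ) (c : ℤ) (hg : 1 < Nat.gcd u b) :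
    ∃ c' : ℤ, cN b (1 + m) u c ≤ cN b m (u / Nat.gcd u b) c' := by
  classical
  by_cases hne : ∃ y0 ∈ DS b m, ∃ x0 ∈ DS b 1, (u : ℤ) ∣ ((x0 + b ^ 1 * y0 : ℕ) : ℤ) - c
  · obtain ⟨y0, hy0, x0, hx0, h0⟩ := hne
    refine ⟨y0, ?_⟩
    unfold cN
    rw [cnt_add hb, cnt_eq_sum b m]
    apply sum_le_sum
    intro y hy
    set g := Nat.gcd u b with hgdef
    have hgu : g ∣ u := Nat.gcd_dvd_left u b
    have hgb : g ∣ b := Nat.gcd_dvd_right u b
    -- any solution
    have hsol : ∀ x ∈ DS b 1, (u : ℤ) ∣ ((x + b ^ 1 * y : ℕ) : ℤ) - c →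
        x = x0 ∧ ((u / g : ℕ) : ℤ) ∣ (y : ℤ) - y0 := by
      intro x hx h1
      have h2 := dvd_sub h1 h0
      have h3 : ((x + b ^ 1 * y : ℕ) : ℤ) - c - (((x0 + b ^ 1 * y0 : ℕ) : ℤ) - c)
          = ((x : ℤ) - x0) + b * ((y : ℤ) - y0) := by push_cast; ring
      rw [h3] at h2
      have hxlt : x = 0 ∨ x = 1 := by
        simp [DS] at hx
        tauto
      have hx0lt : x0 = 0 ∨ x0 = 1 := by
        simp [DS] at hx0
        tauto
      have h4 : (g : ℤ) ∣ ((x : ℤ) - x0) + b * ((y : ℤ) - y0) :=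
        (Int.natCast_dvd_natCast.mpr hgu).trans h2
      have h5 : (g : ℤ) ∣ (b : ℤ) * ((y : ℤ) - y0) :=
        Dvd.dvd.mul_right (Int.natCast_dvd_natCast.mpr hgb) _
      have h6 : (g : ℤ) ∣ (x : ℤ) - x0 := by
        have := dvd_sub h4 h5
        simpa using this
      have h7 : |(x : ℤ) - x0| < g := by
        rw [abs_lt]
        rcases hxlt with rfl | rfl <;> rcases hx0lt with rfl | rfl <;> constructor <;> push_cast <;> omega
      have h8 := Int.eq_zero_of_abs_lt_dvd h6 h7
      have h9 : x = x0 := by omega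
      refine ⟨h9, ?_⟩
      rw [h8, zero_add] at h2
      have hgpos : 0 < g := by omega
      obtain ⟨u', hu'⟩ := hgu
      obtain ⟨b', hb'⟩ := hgb
      have hcop : Nat.Coprime u' b' := by
        have := Nat.coprime_div_gcd_div_gcd (m := u) (n := b) (by rw [← hgdef]; exact hgpos)
        rw [← hgdef] at this
        have e1 : u / g = u' := by rw [hu']; exact Nat.mul_div_cancel_left _ hgpos
        have e2 : b / g = b' := by
          have : b = g * b' := hb'
          rw [this]; exact Nat.mul_div_cancel_left _ hgpos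
        rwa [e1, e2] at this
      have e1 : u / g = u' := by rw [hu']; exact Nat.mul_div_cancel_left _ hgpos
      rw [e1]
      have h10 : ((g : ℤ) * u') ∣ (g : ℤ) * (b' * ((y : ℤ) - y0)) := by
        have e3 : (u : ℤ) = g * u' := by rw [hu']; push_cast; ring
        have e4 : (b : ℤ) = g * b' := by exact_mod_cast hb'
        rw [e3, e4] at h2
        rw [← mul_assoc]
        exact h2
      have h11 : (u' : ℤ) ∣ b' * ((y : ℤ) - y0) :=
        Int.dvd_of_mul_dvd_mul_left (by exact_mod_cast hgpos.ne') h10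
      exact IsCoprime.dvd_of_dvd_mul_left (Nat.isCoprime_iff_coprime.mpr hcop) h11
    by_cases hyy : ((u / g : ℕ) : ℤ) ∣ (y : ℤ) - y0
    · rw [if_pos hyy]
      apply cnt_le_one
      intro x hx x' hx' hp hp'
      rw [(hsol x hx hp).1, (hsol x' hx' hp').1]
    · rw [if_neg hyy, Nat.le_zero]
      apply cnt_eq_zero
      intro x hx h1
      exact hyy (hsol x hx h1).2
  · refine ⟨0, ?_⟩
    push Not at hne
    have : cN b (1 + m) u c = 0 := by
      unfold cN
      rw [cnt_add hb]
      apply sum_eq_zero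
      intro y hy
      apply cnt_eq_zero
      intro x hx
      exact hne y hy x hx
    rw [this]; exact Nat.zero_le _

/-- removing the part of the modulus sharing factors with `b` -/
lemma cN_reduce {b : ℕ} (hb : 2 ≤ b) (T : ℕ) (hT : 2 ≤ T) (u : ℕ) :
    ∀ (m : ℕ) (c : ℤ), 1 ≤ u → T ≤ cN b m u c →
      ∃ (r v : ℕ) (c' : ℤ), r ≤ m ∧ 1 ≤ v ∧ Nat.Coprime v b ∧ u ∣ b ^ r * v ∧ v ∣ u ∧
        T ≤ cN b (m - r) v c' := by
  induction u using Nat.strong_induction_on with
  | _ u ih =>
    intro m c hu hcnt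
    by_cases hg : Nat.gcd u b = 1
    · exact ⟨0, u, c, Nat.zero_le _, hu, hg, by simp, dvd_rfl, by simpa using hcnt⟩
    · have hg1 : 1 < Nat.gcd u b := by
        have : 0 < Nat.gcd u b := Nat.gcd_pos_of_pos_left _ hu
        omega
      have hm : 1 ≤ m := by
        by_contra hm0
        have : m = 0 := by omega
        subst this
        have := cnt_le hb 0 (fun x => (u : ℤ) ∣ (x : ℤ) - c)
        unfold cN at hcnt
        omega
      obtain ⟨m', rfl⟩ : ∃ m', m = 1 + m' := ⟨m - 1, by omega⟩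
      obtain ⟨c', hc'⟩ := cN_gcd_step hb m' u c hg1
      set g := Nat.gcd u b with hgdef
      have hgu : g ∣ u := Nat.gcd_dvd_left u b
      have hgb : g ∣ b := Nat.gcd_dvd_right u b
      have hlt : u / g < u := Nat.div_lt_self hu hg1
      have hpos : 1 ≤ u / g := Nat.div_pos (Nat.le_of_dvd hu hgu) (by omega)
      obtain ⟨r, v, c'', hr, hv, hcop, hdvd, hvu, hT'⟩ := ih (u / g) hlt m' c' hpos (hcnt.trans hc')
      refine ⟨r + 1, v, c'', by omega, hv, hcop, ?_, ?_, ?_⟩
      · have h1 : u = g * (u / g) := (Nat.mul_div_cancel' hgu).symm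
        rw [h1]
        have : b ^ (r + 1) * v = b * (b ^ r * v) := by ring
        rw [this]
        exact mul_dvd_mul hgb hdvd
      · exact hvu.trans (Nat.div_dvd_of_dvd hgu)
      · have : 1 + m' - (r + 1) = m' - r := by omega
        rw [this]; exact hT'

lemma dInt_frac (v : ℕ) (hv : 1 ≤ v) (a : ℤ) (h : ¬ (v : ℤ) ∣ a) :
    1 / (v : ℝ) ≤ dInt ((a : ℝ) / v) := by
  unfold dInt
  have hv0 : (0 : ℝ) < v := by exact_mod_cast hv
  set k := round ((a : ℝ) / v) with hk
  have h1 : (a : ℝ) / v - k = ((a - v * k : ℤ) : ℝ) / v := by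
    push_cast; field_simp
  rw [h1, abs_div, abs_of_pos hv0]
  apply div_le_div_of_nonneg_right _ hv0.le
  have h2 : a - v * k ≠ 0 := by
    intro h0
    apply h
    exact ⟨k, by linarith⟩
  have h3 : (1 : ℤ) ≤ |a - v * k| := Int.one_le_abs h2
  rw [← Int.cast_abs]
  exact_mod_cast h3

lemma ex_pow (x : ℝ) (n : ℕ) : ex x ^ n = ex (n * x) := by
  induction n with
  | zero => simp [ex_zero]
  | succ n ih =>
    rw [pow_succ, ih, ← ex_add]; congr 1; push_cast; ring

lemma sum_ex_range (v : ℕ) (hv : 1 ≤ v) (a : ℤ) :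
    ∑ t ∈ range v, ex (t * ((a : ℝ) / v)) = if (v : ℤ) ∣ a then (v : ℂ) else 0 := by
  have hv0 : (v : ℝ) ≠ 0 := by
    have : (0 : ℝ) < v := by exact_mod_cast hv
    exact this.ne'
  split_ifs with h
  · obtain ⟨k, rfl⟩ := h
    have : ∀ t ∈ range v, ex (t * (((v * k : ℤ) : ℝ) / v)) = 1 := by
      intro t _
      have e : (t : ℝ) * (((v * k : ℤ) : ℝ) / v) = ((t * k : ℤ) : ℝ) := by
        push_cast; field_simp
      rw [e, ex_int]
    rw [sum_congr rfl this]; simp
  · set z := ex ((a : ℝ) / v) with hz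
    have h1 : ∀ t ∈ range v, ex (t * ((a : ℝ) / v)) = z ^ t := by
      intro t _; rw [hz, ex_pow]
    rw [sum_congr rfl h1]
    have hzv : z ^ v = 1 := by
      rw [hz, ex_pow]
      have : (v : ℝ) * ((a : ℝ) / v) = (a : ℤ) := by field_simp
      rw [this, ex_int]
    have hz1 : z ≠ 1 := by
      intro h2
      rw [hz, ex, Complex.exp_eq_one_iff] at h2
      obtain ⟨k, hk⟩ := h2
      have hpi : (2 * Real.pi : ℂ) * Complex.I ≠ 0 := Complex.two_pi_I_ne_zero
      have h3 : (((a : ℝ) / v : ℝ) : ℂ) = (k : ℂ) := by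
        apply mul_right_cancel₀ hpi
        rw [← hk]; push_cast; ring
      have h4 : (a : ℝ) / v = k := by exact_mod_cast h3
      apply h
      refine ⟨k, ?_⟩
      have h5 : (a : ℝ) = v * k := by
        rw [← h4]; field_simp
      exact_mod_cast h5
    have h6 := mul_neg_geom_sum z v
    rw [hzv, sub_self] at h6
    rcases mul_eq_zero.mp h6 with h7 | h7
    · exact absurd (sub_eq_zero.mp h7).symm hz1
    · exact h7

/-- distribution modulo `v` coprime to `b` -/
lemma cN_fourier {b : ℕ} (hb : 2 ≤ b) (v : ℕ) (hv : 1 ≤ v) (hcop : Nat.Coprime v b)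
    (k R m : ℕ) (hk : v ≤ b ^ k) (hm : R * k ≤ m) (c : ℤ) :
    (cN b m v c : ℝ) ≤ 2 ^ m * (1 / v + th b ^ R) := by
  classical
  have hv0 : (0 : ℝ) < v := by exact_mod_cast hv
  have h1 : ((v : ℂ) * (cN b m v c : ℂ))
      = ∑ t ∈ range v, ∑ x ∈ DS b m, ex (t * (((x : ℤ) - c : ℤ) / (v : ℝ))) := by
    rw [sum_comm]
    unfold cN
    rw [cnt_eq_sum]
    push_cast
    rw [mul_sum]
    apply sum_congr rfl
    intro x _
    have := sum_ex_range v hv ((x : ℤ) - c)
    push_cast at this
    rw [this]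
    split_ifs <;> simp
  have h2 : ∀ t ∈ range v, ‖∑ x ∈ DS b m, ex (t * (((x : ℤ) - c : ℤ) / (v : ℝ)))‖
      ≤ 2 ^ m * (if t = 0 then 1 else th b ^ R) := by
    intro t ht
    have e1 : ∀ x ∈ DS b m, ex (t * (((x : ℤ) - c : ℤ) / (v : ℝ)))
        = ex (-(t * c / v)) * ex (((t : ℝ) / v) * x) := by
      intro x _
      rw [← ex_add]; congr 1; push_cast; ring
    rw [sum_congr rfl e1, ← mul_sum, norm_mul, norm_ex, one_mul, norm_sum_DS_ex hb]
    apply mul_le_mul_of_nonneg_left _ (by positivity)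
    split_ifs with ht0
    · apply prod_le_one
      · intro j _; exact abs_nonneg _
      · intro j _; exact Real.abs_cos_le_one _
    · have e2 : m = R * k + (m - R * k) := by omega
      rw [e2, prod_range_add]
      calc _ ≤ th b ^ R * 1 := by
            apply mul_le_mul
            · apply prod_cos_le hb
              intro r _
              have htv := mem_range.mp ht
              have e3 : (b : ℝ) ^ (r * k) * ((t : ℝ) / v) = (((b ^ (r * k) * t : ℕ) : ℤ) : ℝ) / v := by
                push_cast; ring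
              rw [e3]
              have h3 : ¬ (v : ℤ) ∣ ((b ^ (r * k) * t : ℕ) : ℤ) := by
                rw [Int.natCast_dvd_natCast]
                intro h4
                have h5 : v ∣ t := (Nat.Coprime.pow_right (r * k) hcop).dvd_of_dvd_mul_left h4
                have := Nat.le_of_dvd (Nat.pos_of_ne_zero ht0) h5
                omega
              refine le_trans ?_ (dInt_frac v hv _ h3)
              apply one_div_le_one_div_of_le hv0
              exact_mod_cast hk
            · apply prod_le_one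
              · intro j _; exact abs_nonneg _
              · intro j _; exact Real.abs_cos_le_one _
            · exact prod_nonneg (fun j _ => abs_nonneg _)
            · exact pow_nonneg (th_pos hb).le _
        _ = th b ^ R := mul_one _
  have h3 : (v : ℝ) * (cN b m v c : ℝ) ≤ ∑ t ∈ range v, 2 ^ m * (if t = 0 then 1 else th b ^ R) := by
    have h4 : (v : ℝ) * (cN b m v c : ℝ) = ‖((v : ℂ) * (cN b m v c : ℂ))‖ := by
      rw [norm_mul]; simp
    rw [h4, h1]
    exact (norm_sum_le _ _).trans (sum_le_sum h2)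
  have h5 : ∑ t ∈ range v, (2 : ℝ) ^ m * (if t = 0 then 1 else th b ^ R)
      ≤ 2 ^ m * (1 + v * th b ^ R) := by
    rw [← mul_sum]
    apply mul_le_mul_of_nonneg_left _ (by positivity)
    have : ∀ t ∈ range v, (if t = 0 then (1 : ℝ) else th b ^ R)
        ≤ (if t = 0 then (1 : ℝ) else 0) + th b ^ R := by
      intro t _
      have := pow_nonneg (th_pos hb).le R
      split_ifs <;> linarith
    refine (sum_le_sum this).trans ?_
    rw [sum_add_distrib, sum_const, card_range, nsmul_eq_mul]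
    have h6 : ∑ t ∈ range v, (if t = 0 then (1 : ℝ) else 0) ≤ 1 := by
      rw [sum_ite_eq' (range v) 0]
      split_ifs <;> norm_num
    linarith
  have h7 : (v : ℝ) * (cN b m v c : ℝ) ≤ v * (2 ^ m * (1 / v + th b ^ R)) := by
    refine h3.trans (h5.trans (le_of_eq ?_))
    field_simp
  exact le_of_mul_le_mul_left h7 hv0

end Pool.Agent.Helper29_HSet
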