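import Pool.Agent.Helper29_HSet.Approx

/-!
The quantitative theorem.
-/

set_option autoImplicit false

namespace Pool.Agent.Helper29_HSet

open Finset

/-- half of the number of digits used -/
def Ldig (n Λ : ℕ) : ℕ := Λ * (2 * (Λ * (Λ + 1) + Λ + 256 * n ^ 3 * Λ + n + 3))

theorem main_step {b : ℕ} (hb : 2 ≤ b) (n Λ : ℕ) (hn : 1 ≤ n) (hΛ : 1 ≤ Λ)
    (hth : (Λ : ℝ) * th b ^ Λ ≤ 1 / (64 * (n : ℝ) ^ 2)) (γ : ℝ) :
    ∃ F : Finset ℕ, F.Nonempty ∧ F ⊆ range (Ldig n Λ + Ldig n Λ) ∧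
      dInt (γ * ((∑ i ∈ F, b ^ i : ℕ) : ℝ) ^ 2) < 1 / ((n : ℝ) + 1) := by
  classical
  by_contra hcon
  push Not at hcon
  have hb1 : (2 : ℝ) ≤ b := by exact_mod_cast hb
  have hb0 : (0 : ℝ) < b := by linarith
  have hn1 : (1 : ℝ) ≤ n := by exact_mod_cast hn
  have hn0 : (0 : ℝ) < n := by linarith
  have hΛ1 : (1 : ℝ) ≤ Λ := by exact_mod_cast hΛ
  have hΛ0 : (0 : ℝ) < Λ := by linarith
  obtain ⟨m, hm⟩ : ∃ m, m = Λ * (Λ + 1) := ⟨_, rfl⟩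
  obtain ⟨w, hw⟩ : ∃ w, w = m + Λ + 256 * n ^ 3 * Λ + n + 3 := ⟨_, rfl⟩
  obtain ⟨L, hL⟩ : ∃ L, L = Λ * (2 * w) := ⟨_, rfl⟩
  have hLd : Ldig n Λ = L := by rw [hL, hw, hm, Ldig]
  rw [hLd] at hcon
  obtain ⟨δ, hδ⟩ : ∃ δ : ℝ, δ = 1 / (4 * n) := ⟨_, rfl⟩
  obtain ⟨ρ, hρ⟩ : ∃ ρ : ℝ, ρ = δ ^ 2 / (2 * Λ) := ⟨_, rfl⟩
  have hδ0 : 0 < δ := by rw [hδ]; positivity
  have hρ0 : 0 < ρ := by rw [hρ]; positivity
  have hρ' : ρ = 1 / (32 * n ^ 2 * Λ) := by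
    rw [hρ, hδ]; field_simp; norm_num
  have hthΛ : th b ^ Λ ≤ 1 / (64 * (n : ℝ) ^ 2 * Λ) := by
    rw [le_div_iff₀ (by positivity)]
    rw [le_div_iff₀ (by positivity)] at hth
    linarith
  have hc1 : th b ^ Λ ≤ δ ^ 2 / 2 := by
    refine hthΛ.trans ?_
    rw [hδ]
    have : ((1 : ℝ) / (4 * n)) ^ 2 / 2 = 1 / (32 * n ^ 2) := by field_simp; norm_num
    rw [this]
    apply one_div_le_one_div_of_le (by positivity)
    have : 0 ≤ (n : ℝ) ^ 2 := by positivity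
    nlinarith
  have hc2 : th b ^ Λ ≤ ρ / 2 := by
    refine hthΛ.trans (le_of_eq ?_)
    rw [hρ']; field_simp; norm_num
  have hc3 : 1 / ρ < 2 ^ Λ := by
    have h1 : (1 / 2 : ℝ) ^ Λ ≤ th b ^ Λ := by
      apply pow_le_pow_left₀ (by norm_num)
      unfold th
      have h4 : (4 : ℝ) ≤ (b : ℝ) ^ 2 := by nlinarith
      have h3 : 1 / (2 * (b : ℝ) ^ 2) ≤ 1 / (2 * 4) := by
        apply one_div_le_one_div_of_le (by norm_num); linarith
      norm_num at h3 ⊢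
      linarith
    have h2 : (1 / 2 : ℝ) ^ Λ ≤ 1 / (64 * (n : ℝ) ^ 2 * Λ) := h1.trans hthΛ
    rw [one_div_pow] at h2
    have h3 : (64 * (n : ℝ) ^ 2 * Λ) ≤ 2 ^ Λ :=
      le_of_one_div_le_one_div (by positivity) h2
    have h4 : 1 / ρ = 32 * (n : ℝ) ^ 2 * Λ := by rw [hρ']; field_simp
    rw [h4]
    have : 0 < (n : ℝ) ^ 2 * Λ := by positivity
    nlinarith
  -- the exponential sum
  set s := (DS b (L + L)).erase 0 with hs
  have hscard : (s.card : ℝ) = 2 ^ (L + L) - 1 := by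
    rw [hs, card_erase_of_mem (zero_mem_DS b _), card_DS hb]
    rw [Nat.cast_sub (Nat.one_le_two_pow)]
    push_cast; ring
  have hwge : n + 3 ≤ w := by rw [hw]; omega
  have hLge : 2 * w ≤ L := by rw [hL]; nlinarith
  have hpow : (12 * n + 4 : ℝ) ≤ 2 ^ (L + L) := by
    have h1 : (4 * (n + 3)) ≤ L + L := by omega
    have h2 : 4 * (n + 3) < 2 ^ (4 * (n + 3)) := Nat.lt_two_pow_self
    have h3 : 12 * n + 4 ≤ 2 ^ (4 * (n + 3)) := by
      have e : (2 : ℕ) ^ (4 * (n + 3)) = 2 ^ (4 * n + 8) * 16 := by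
        rw [show 4 * (n + 3) = (4 * n + 8) + 4 by ring, pow_add]; norm_num
      have : 4 * n + 8 < 2 ^ (4 * n + 8) := Nat.lt_two_pow_self
      rw [e]; omega
    have h4 : (2 : ℕ) ^ (4 * (n + 3)) ≤ 2 ^ (L + L) := Nat.pow_le_pow_right (by norm_num) h1
    exact_mod_cast h3.trans h4
  have hsne : s.Nonempty := by
    rw [← card_pos]
    have : (0 : ℝ) < s.card := by rw [hscard]; linarith
    exact_mod_cast this
  obtain ⟨h, hh1, hhn, hE⟩ := kernel_lemma s hsne (fun i : ℕ => γ * (i : ℝ) ^ 2) n hn (by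
    intro i hi
    have hi' := mem_erase.mp hi
    obtain ⟨F, hF, hFs⟩ := (mem_DS_iff (L + L) i).mp hi'.2
    have hFne : F.Nonempty := by
      rw [nonempty_iff_ne_empty]
      rintro rfl
      apply hi'.1
      rw [hFs]; simp
    have := hcon F hFne hF
    rw [← hFs] at this
    exact this)
  have hh1' : (1 : ℝ) ≤ h := by exact_mod_cast hh1
  have hhn' : (h : ℝ) ≤ n := by exact_mod_cast hhn
  have hSbig : δ * 2 ^ (L + L) ≤ ‖∑ z ∈ DS b (L + L), ex ((h * γ) * (z : ℝ) ^ 2)‖ := by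
    have h1 : ∑ z ∈ DS b (L + L), ex ((h * γ) * (z : ℝ) ^ 2)
        = 1 + ∑ i ∈ s, ex (h * (γ * (i : ℝ) ^ 2)) := by
      rw [← add_sum_erase _ _ (zero_mem_DS b (L + L))]
      congr 1
      · simp [ex_zero]
      · apply sum_congr rfl
        intro i _
        congr 1; ring
    have h2 : ‖∑ i ∈ s, ex (h * (γ * (i : ℝ) ^ 2))‖ ≤ ‖∑ z ∈ DS b (L + L), ex ((h * γ) * (z : ℝ) ^ 2)‖ + 1 := by
      have : ∑ i ∈ s, ex (h * (γ * (i : ℝ) ^ 2))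
          = (∑ z ∈ DS b (L + L), ex ((h * γ) * (z : ℝ) ^ 2)) - 1 := by rw [h1]; ring
      rw [this]
      refine (norm_sub_le _ _).trans ?_
      simp
    have h3 : δ * 2 ^ (L + L) ≤ (s.card : ℝ) / (3 * n) - 1 := by
      rw [hscard, hδ]
      have e : (2 ^ (L + L) - 1 : ℝ) / (3 * n) - 1 - 1 / (4 * n) * 2 ^ (L + L)
          = (2 ^ (L + L) - (12 * n + 4)) / (12 * n) := by field_simp; ring
      have : 0 ≤ (2 ^ (L + L) - (12 * n + 4) : ℝ) / (12 * n) := by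
        apply div_nonneg _ (by positivity)
        linarith
      linarith
    linarith
  -- window
  obtain ⟨r, hr, y', hy', hcnt⟩ := exists_window hb (h * γ) δ Λ (2 * w) hΛ hδ0 hc1 (by
    rw [← hL]; exact hSbig)
  rw [← hL, ← hρ] at hcnt
  have hmL : m ≤ L := by omega
  have hsplit : L = m + (L - m) := by omega
  obtain ⟨V, hV, hcntV⟩ := cnt_pigeon hb m (L - m)
    (fun y => dInt ((b : ℝ) ^ (r * (2 * w)) * (2 * (h * γ) * (b : ℝ) ^ L * (y - y')))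
      < 1 / (b : ℝ) ^ (2 * w)) ρ (by rw [← hsplit]; exact hcnt)
  obtain ⟨j, hj⟩ : ∃ j, j = L + r * (2 * w) := ⟨_, rfl⟩
  obtain ⟨v, r', A, hv, hv2, hr', happ⟩ := equi hb ρ hρ0 Λ Λ m w hc3 hc2 (by rw [hm]) (by omega)
    (2 * (h * γ) * (b : ℝ) ^ j) ((b : ℝ) ^ m * V - y') (by
      refine hcntV.trans (le_of_eq ?_)
      congr 2
      funext x
      have : (b : ℝ) ^ (r * (2 * w)) * (2 * (h * γ) * (b : ℝ) ^ L * (((x + b ^ m * V : ℕ) : ℝ) - y'))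
          = 2 * (h * γ) * (b : ℝ) ^ j * (x + ((b : ℝ) ^ m * V - y')) := by
        rw [hj, pow_add]; push_cast; ring
      rw [this])
  obtain ⟨F, hF, hFs, hFd⟩ := extract hb γ h v r' j w A hh1 hv happ
  -- size of Q
  have hQ : 2 * h * v ≤ 128 * n ^ 3 * Λ := by
    have hv3 : (v : ℝ) ≤ 64 * n ^ 2 * Λ := by
      refine hv2.trans (le_of_eq ?_)
      rw [hρ']; field_simp; norm_num
    have : (2 * h * v : ℝ) ≤ 128 * n ^ 3 * Λ := by
      calc (2 * h * v : ℝ) ≤ 2 * n * (64 * n ^ 2 * Λ) := by gcongr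
        _ = 128 * n ^ 3 * Λ := by ring
    exact_mod_cast this
  have hjle : j + 2 * w ≤ 2 * L := by
    have : r * (2 * w) + 2 * w ≤ Λ * (2 * w) := by
      have : r * (2 * w) + 2 * w = (r + 1) * (2 * w) := by ring
      rw [this]
      exact Nat.mul_le_mul_right _ hr
    rw [hj]; omega
  have h256 : 256 * n ^ 3 * Λ = 2 * (128 * n ^ 3 * Λ) := by ring
  have hFsub : F ⊆ range (L + L) := by
    refine hFs.trans (range_subset_range.mpr ?_)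
    omega
  have hfin := hcon F hF hFsub
  have hlt : (b : ℝ) ^ (1 + 2 * (2 * h * v) + r') / (b : ℝ) ^ w < 1 / ((n : ℝ) + 1) := by
    rw [div_lt_div_iff₀ (by positivity) (by positivity), one_mul]
    have h1 : (1 + 2 * (2 * h * v) + r') + (n + 1) ≤ w := by omega
    have h2 : (b : ℝ) ^ ((1 + 2 * (2 * h * v) + r') + (n + 1)) ≤ (b : ℝ) ^ w :=
      pow_le_pow_right₀ (by linarith) h1
    refine lt_of_lt_of_le ?_ h2
    rw [pow_add _ _ (n + 1)]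
    apply mul_lt_mul_of_pos_left _ (by positivity)
    have h3 : (n + 1 : ℝ) < 2 ^ (n + 1) := by
      exact_mod_cast (Nat.lt_two_pow_self (n := n + 1))
    refine h3.trans_le ?_
    exact pow_le_pow_left₀ (by norm_num) hb1 _
  linarith

/-- choice of `Λ` -/
lemma exists_Λ {b : ℕ} (hb : 2 ≤ b) (η : ℝ) (hη : 0 < η) :
    ∃ C : ℝ, 1 ≤ C ∧ ∀ n : ℕ, 1 ≤ n → ∃ Λ : ℕ, 1 ≤ Λ ∧ (Λ : ℝ) ≤ C * (n : ℝ) ^ η ∧
      (Λ : ℝ) * th b ^ Λ ≤ 1 / (64 * (n : ℝ) ^ 2) := by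
  obtain ⟨p, hp⟩ := exists_nat_ge (2 / η)
  have hp0 : 0 < p := by
    have : (0 : ℝ) < 2 / η := by positivity
    have : (0 : ℝ) < p := by linarith
    exact_mod_cast this
  have htend := tendsto_pow_const_mul_const_pow_of_abs_lt_one (p + 1) (r := th b)
    (by rw [abs_of_pos (th_pos hb)]; exact th_lt_one hb)
  obtain ⟨B, hB⟩ := htend.bddAbove_range
  have hB' : ∀ k : ℕ, (k : ℝ) ^ (p + 1) * th b ^ k ≤ B := by
    intro k
    exact hB ⟨k, rfl⟩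
  set D : ℝ := 64 * |B| + 1 with hD
  have hD1 : 1 ≤ D := by
    have := abs_nonneg B
    rw [hD]; linarith
  refine ⟨D + 1, by linarith, ?_⟩
  intro n hn
  have hn1 : (1 : ℝ) ≤ n := by exact_mod_cast hn
  have hnη : 1 ≤ (n : ℝ) ^ η := Real.one_le_rpow hn1 hη.le
  have hx : 1 ≤ D * (n : ℝ) ^ η := by nlinarith
  refine ⟨⌈D * (n : ℝ) ^ η⌉₊, ?_, ?_, ?_⟩
  · exact Nat.one_le_ceil_iff.mpr (by linarith)
  · have := Nat.ceil_lt_add_one (a := D * (n : ℝ) ^ η) (by linarith)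
    nlinarith
  · set Λ := ⌈D * (n : ℝ) ^ η⌉₊ with hΛ
    have h1 : D * (n : ℝ) ^ η ≤ Λ := Nat.le_ceil _
    have hΛ0 : (0 : ℝ) < Λ := by linarith
    have h2 : D * (n : ℝ) ^ 2 ≤ (Λ : ℝ) ^ p := by
      have h3 : (D * (n : ℝ) ^ η) ^ p ≤ (Λ : ℝ) ^ p := by
        apply pow_le_pow_left₀ (by positivity) h1
      refine le_trans ?_ h3
      rw [mul_pow]
      have h4 : D ≤ D ^ p := le_self_pow₀ hD1 (by omega)
      have h5 : (n : ℝ) ^ 2 ≤ ((n : ℝ) ^ η) ^ p := by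
        rw [← Real.rpow_natCast ((n : ℝ) ^ η) p, ← Real.rpow_mul (by linarith),
          ← Real.rpow_natCast (n : ℝ) 2]
        apply Real.rpow_le_rpow_of_exponent_le hn1
        rw [div_le_iff₀ hη] at hp
        push_cast
        linarith
      exact mul_le_mul h4 h5 (by positivity) (by positivity)
    have h6 := hB' Λ
    rw [pow_succ] at h6
    have h7 : (Λ : ℝ) ^ p * ((Λ : ℝ) * th b ^ Λ) ≤ B := by linarith [h6, mul_assoc ((Λ : ℝ) ^ p) (Λ : ℝ) (th b ^ Λ)]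
    have h8 : 0 ≤ (Λ : ℝ) * th b ^ Λ := by
      have := pow_nonneg (th_pos hb).le Λ
      positivity
    have h9 : D * (n : ℝ) ^ 2 * ((Λ : ℝ) * th b ^ Λ) ≤ |B| := by
      refine le_trans ?_ (h7.trans (le_abs_self B))
      exact mul_le_mul_of_nonneg_right h2 h8
    rw [le_div_iff₀ (by positivity)]
    have h10 : 64 * (D * (n : ℝ) ^ 2 * ((Λ : ℝ) * th b ^ Λ)) ≤ D * 1 := by
      have := abs_nonneg B
      rw [hD] at *
      linarith
    have h11 : D * ((Λ : ℝ) * th b ^ Λ * (64 * (n : ℝ) ^ 2)) ≤ D * 1 := by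
      refine le_trans (le_of_eq ?_) h10
      ring
    exact le_of_mul_le_mul_left h11 (by linarith)

/-- polynomial number of digits -/
lemma exists_digits {b : ℕ} (hb : 2 ≤ b) (a : ℝ) (ha : 3 < a) :
    ∃ C : ℝ, 0 < C ∧ ∀ n : ℕ, 1 ≤ n → ∃ K : ℕ, (K : ℝ) ≤ C * (n : ℝ) ^ a ∧ ∀ γ : ℝ,
      ∃ F : Finset ℕ, F.Nonempty ∧ F ⊆ range K ∧
        dInt (γ * ((∑ i ∈ F, b ^ i : ℕ) : ℝ) ^ 2) < 1 / ((n : ℝ) + 1) := by
  obtain ⟨η, hη0, hη1, hηa⟩ : ∃ η : ℝ, 0 < η ∧ η ≤ 1 ∧ 3 + 2 * η ≤ a := by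
    refine ⟨min 1 ((a - 3) / 2), ?_, min_le_left _ _, ?_⟩
    · apply lt_min one_pos
      linarith
    · have := min_le_right 1 ((a - 3) / 2)
      linarith
  obtain ⟨C, hC1, hC⟩ := exists_Λ hb η hη0
  refine ⟨4 * C ^ 2 * (C + 262), by positivity, ?_⟩
  intro n hn
  have hn1 : (1 : ℝ) ≤ n := by exact_mod_cast hn
  obtain ⟨Λ, hΛ1, hΛC, hΛth⟩ := hC n hn
  refine ⟨Ldig n Λ + Ldig n Λ, ?_, ?_⟩
  · have hΛ1' : (1 : ℝ) ≤ Λ := by exact_mod_cast hΛ1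
    have hLd : ((Ldig n Λ + Ldig n Λ : ℕ) : ℝ)
        = 4 * Λ * (Λ ^ 2 + 2 * Λ + 256 * n ^ 3 * Λ + n + 3) := by
      unfold Ldig; push_cast; ring
    rw [hLd]
    have hn3 : (n : ℝ) ≤ n ^ 3 := by
      have : (n : ℝ) * 1 ≤ n * n ^ 2 := by
        apply mul_le_mul_of_nonneg_left _ (by linarith)
        nlinarith
      nlinarith
    have hnpos : (0 : ℝ) < n := by linarith
    have hΛn : (Λ : ℝ) ≤ C * n ^ 3 := by
      have h1 : (n : ℝ) ^ η ≤ (n : ℝ) ^ (1 : ℝ) := Real.rpow_le_rpow_of_exponent_le hn1 hη1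
      rw [Real.rpow_one] at h1
      calc (Λ : ℝ) ≤ C * (n : ℝ) ^ η := hΛC
        _ ≤ C * n ^ 3 := by
          apply mul_le_mul_of_nonneg_left (h1.trans hn3) (by linarith)
    have h13 : (1 : ℝ) ≤ n ^ 3 := hn1.trans hn3
    have h2 : (Λ : ℝ) ^ 2 + 2 * Λ + 256 * n ^ 3 * Λ + n + 3 ≤ Λ * ((C + 262) * n ^ 3) := by
      have e1 : (Λ : ℝ) ^ 2 ≤ Λ * (C * n ^ 3) := by
        rw [sq]; exact mul_le_mul_of_nonneg_left hΛn (by linarith)
      have e2 : 2 * (Λ : ℝ) ≤ Λ * (2 * n ^ 3) := by nlinarith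
      have e3 : (n : ℝ) ≤ Λ * n ^ 3 := by nlinarith
      have e4 : (3 : ℝ) ≤ Λ * (3 * n ^ 3) := by nlinarith
      nlinarith
    have h3 : 4 * (Λ : ℝ) * (Λ ^ 2 + 2 * Λ + 256 * n ^ 3 * Λ + n + 3)
        ≤ 4 * Λ * (Λ * ((C + 262) * n ^ 3)) := by gcongr
    have h4 : (Λ : ℝ) * Λ ≤ (C * (n : ℝ) ^ η) * (C * (n : ℝ) ^ η) := by
      apply mul_le_mul hΛC hΛC (by linarith) (by positivity)
    have h5 : 4 * (Λ : ℝ) * (Λ * ((C + 262) * n ^ 3))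
        ≤ 4 * ((C * (n : ℝ) ^ η) * (C * (n : ℝ) ^ η)) * ((C + 262) * n ^ 3) := by
      have : 4 * (Λ : ℝ) * (Λ * ((C + 262) * n ^ 3)) = 4 * (Λ * Λ) * ((C + 262) * n ^ 3) := by ring
      rw [this]
      gcongr
    have h6 : 4 * ((C * (n : ℝ) ^ η) * (C * (n : ℝ) ^ η)) * ((C + 262) * n ^ 3)
        = 4 * C ^ 2 * (C + 262) * (n : ℝ) ^ (3 + 2 * η) := by
      have : (n : ℝ) ^ (3 + 2 * η) = (n : ℝ) ^ 3 * ((n : ℝ) ^ η * (n : ℝ) ^ η) := by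
        rw [← Real.rpow_add hnpos, ← Real.rpow_natCast (n : ℝ) 3, ← Real.rpow_add hnpos]
        congr 1; push_cast; ring
      rw [this]; ring
    have h7 : (n : ℝ) ^ (3 + 2 * η) ≤ (n : ℝ) ^ a := Real.rpow_le_rpow_of_exponent_le hn1 hηa
    calc _ ≤ _ := h3
      _ ≤ _ := h5
      _ = 4 * C ^ 2 * (C + 262) * (n : ℝ) ^ (3 + 2 * η) := h6
      _ ≤ _ := by
          apply mul_le_mul_of_nonneg_left h7
          have : 0 < C := by linarith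
          positivity
  · intro γ
    exact main_step hb n Λ hn hΛ1 hΛth γ

end Pool.Agent.Helper29_HSet
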