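import Pool.Agent.Helper29_HSet.Equi

/-!
Cauchy-Schwarz and the selection of a window of digits.
-/

set_option autoImplicit false

namespace Pool.Agent.Helper29_HSet

open Finset

lemma cs_bound {b : ℕ} (hb : 2 ≤ b) (L : ℕ) (α : ℝ) :
    ‖∑ z ∈ DS b (L + L), ex (α * (z : ℝ) ^ 2)‖ ^ 2
      ≤ 4 ^ L * ∑ y' ∈ DS b L, ∑ y ∈ DS b L,
          ∏ j ∈ range L, |Real.cos (Real.pi * ((b : ℝ) ^ j * (2 * α * (b : ℝ) ^ L * (y - y'))))| := by
  set T : ℕ → ℂ := fun x => ∑ y ∈ DS b L,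
    ex (2 * α * (b : ℝ) ^ L * y * x) * ex (α * (b : ℝ) ^ (2 * L) * (y : ℝ) ^ 2) with hT
  have h1 : ‖∑ z ∈ DS b (L + L), ex (α * (z : ℝ) ^ 2)‖ ≤ ∑ x ∈ DS b L, ‖T x‖ := by
    rw [sum_DS_add hb, sum_comm]
    refine (norm_sum_le _ _).trans (sum_le_sum ?_)
    intro x _
    have e : ∑ y ∈ DS b L, ex (α * ((x + b ^ L * y : ℕ) : ℝ) ^ 2) = ex (α * (x : ℝ) ^ 2) * T x := by
      rw [hT, mul_sum]
      apply sum_congr rfl
      intro y _
      rw [← ex_add, ← ex_add]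
      congr 1
      push_cast; ring
    rw [e, norm_mul, norm_ex, one_mul]
  have h2 : (∑ x ∈ DS b L, ‖T x‖) ^ 2 ≤ 2 ^ L * ∑ x ∈ DS b L, ‖T x‖ ^ 2 := by
    have := sq_sum_le_card_mul_sum_sq (s := DS b L) (f := fun x => ‖T x‖)
    rw [card_DS hb] at this
    push_cast at this
    exact this
  have h3 : ((∑ x ∈ DS b L, ‖T x‖ ^ 2 : ℝ) : ℂ)
      = ∑ y' ∈ DS b L, ∑ y ∈ DS b L,
        (ex (α * (b : ℝ) ^ (2 * L) * (y : ℝ) ^ 2) * ex (-(α * (b : ℝ) ^ (2 * L) * (y' : ℝ) ^ 2)))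
          * ∑ x ∈ DS b L, ex ((2 * α * (b : ℝ) ^ L * (y - y')) * x) := by
    have e1 : ∀ x ∈ DS b L, ((‖T x‖ ^ 2 : ℝ) : ℂ)
        = ∑ y' ∈ DS b L, ∑ y ∈ DS b L,
        (ex (α * (b : ℝ) ^ (2 * L) * (y : ℝ) ^ 2) * ex (-(α * (b : ℝ) ^ (2 * L) * (y' : ℝ) ^ 2)))
          * ex ((2 * α * (b : ℝ) ^ L * (y - y')) * x) := by
      intro x _
      have e2 : ((‖T x‖ ^ 2 : ℝ) : ℂ) = (starRingEnd ℂ) (T x) * T x := by
        rw [mul_comm, Complex.mul_conj, Complex.normSq_eq_norm_sq]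
      rw [e2, hT]
      simp only
      rw [map_sum, sum_mul_sum]
      apply sum_congr rfl
      intro y' _
      apply sum_congr rfl
      intro y _
      rw [map_mul, conj_ex, conj_ex]
      have e3 : ex ((2 * α * (b : ℝ) ^ L * (y - y')) * x)
          = ex (2 * α * (b : ℝ) ^ L * y * x) * ex (-(2 * α * (b : ℝ) ^ L * y' * x)) := by
        rw [← ex_add]; congr 1; ring
      rw [e3]; ring
    rw [Complex.ofReal_sum, sum_congr rfl e1, sum_comm]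
    apply sum_congr rfl
    intro y' _
    rw [sum_comm]
    apply sum_congr rfl
    intro y _
    rw [← mul_sum]
  have h4 : ∑ x ∈ DS b L, ‖T x‖ ^ 2 ≤ ∑ y' ∈ DS b L, ∑ y ∈ DS b L,
      2 ^ L * ∏ j ∈ range L, |Real.cos (Real.pi * ((b : ℝ) ^ j * (2 * α * (b : ℝ) ^ L * (y - y'))))| := by
    have e0 : ∑ x ∈ DS b L, ‖T x‖ ^ 2 = ‖((∑ x ∈ DS b L, ‖T x‖ ^ 2 : ℝ) : ℂ)‖ := by
      rw [Complex.norm_real, Real.norm_eq_abs, abs_of_nonneg]
      exact sum_nonneg (fun x _ => by positivity)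
    rw [e0, h3]
    refine (norm_sum_le _ _).trans (sum_le_sum ?_)
    intro y' _
    refine (norm_sum_le _ _).trans (sum_le_sum ?_)
    intro y _
    rw [norm_mul, norm_mul, norm_ex, norm_ex, one_mul, one_mul, norm_sum_DS_ex hb]
  calc ‖∑ z ∈ DS b (L + L), ex (α * (z : ℝ) ^ 2)‖ ^ 2
      ≤ (∑ x ∈ DS b L, ‖T x‖) ^ 2 := by
        apply pow_le_pow_left₀ (norm_nonneg _) h1
    _ ≤ 2 ^ L * ∑ x ∈ DS b L, ‖T x‖ ^ 2 := h2
    _ ≤ 2 ^ L * ∑ y' ∈ DS b L, ∑ y ∈ DS b L,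
      2 ^ L * ∏ j ∈ range L, |Real.cos (Real.pi * ((b : ℝ) ^ j * (2 * α * (b : ℝ) ^ L * (y - y'))))| := by
        gcongr
    _ = _ := by
        have e4 : (4 : ℝ) ^ L = 2 ^ L * 2 ^ L := by rw [← mul_pow]; norm_num
        rw [e4, mul_sum, mul_sum]
        apply sum_congr rfl
        intro y' _
        rw [mul_sum, mul_sum]
        apply sum_congr rfl
        intro y _
        ring

lemma exists_window {b : ℕ} (hb : 2 ≤ b) (α δ : ℝ) (R W : ℕ) (hR : 1 ≤ R) (hδ : 0 < δ)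
    (hθ : th b ^ R ≤ δ ^ 2 / 2)
    (hS : δ * 2 ^ (R * W + R * W) ≤ ‖∑ z ∈ DS b (R * W + R * W), ex (α * (z : ℝ) ^ 2)‖) :
    ∃ r < R, ∃ y' ∈ DS b (R * W), δ ^ 2 / (2 * R) * 2 ^ (R * W) ≤
      cnt b (R * W) (fun y => dInt ((b : ℝ) ^ (r * W) * (2 * α * (b : ℝ) ^ (R * W) * (y - y')))
        < 1 / (b : ℝ) ^ W) := by
  classical
  by_contra hcon
  push Not at hcon
  set L := R * W with hL
  have hR0 : (0 : ℝ) < R := by exact_mod_cast hR
  have h1 := cs_bound hb L α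
  have h2 : (δ * 2 ^ (L + L)) ^ 2 ≤ ‖∑ z ∈ DS b (L + L), ex (α * (z : ℝ) ^ 2)‖ ^ 2 := by
    apply pow_le_pow_left₀ (by positivity) hS
  set Sg := ∑ y' ∈ DS b L, ∑ y ∈ DS b L,
          ∏ j ∈ range L, |Real.cos (Real.pi * ((b : ℝ) ^ j * (2 * α * (b : ℝ) ^ L * (y - y'))))| with hSg
  have h3 : δ ^ 2 * 4 ^ L ≤ Sg := by
    have h4 : (δ * 2 ^ (L + L)) ^ 2 = 4 ^ L * (δ ^ 2 * 4 ^ L) := by
      have : (4 : ℝ) ^ L = 2 ^ L * 2 ^ L := by rw [← mul_pow]; norm_num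
      rw [this, pow_add]; ring
    rw [h4] at h2
    have h5 := h2.trans h1
    exact le_of_mul_le_mul_left h5 (by positivity)
  -- pointwise bound
  have hpt : ∀ y' ∈ DS b L, ∀ y ∈ DS b L,
      ∏ j ∈ range L, |Real.cos (Real.pi * ((b : ℝ) ^ j * (2 * α * (b : ℝ) ^ L * (y - y'))))|
        ≤ th b ^ R + ∑ r ∈ range R,
          (if dInt ((b : ℝ) ^ (r * W) * (2 * α * (b : ℝ) ^ L * (y - y'))) < 1 / (b : ℝ) ^ W
            then (1 : ℝ) else 0) := by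
    intro y' _ y _
    by_cases hall : ∀ r < R, 1 / (b : ℝ) ^ W ≤ dInt ((b : ℝ) ^ (r * W) * (2 * α * (b : ℝ) ^ L * (y - y')))
    · have := prod_cos_le hb W R _ hall
      rw [hL] at *
      refine this.trans ?_
      have h0 : 0 ≤ ∑ r ∈ range R,
          (if dInt ((b : ℝ) ^ (r * W) * (2 * α * (b : ℝ) ^ (R * W) * (y - y'))) < 1 / (b : ℝ) ^ W
            then (1 : ℝ) else 0) := by
        apply sum_nonneg
        intro r _
        split_ifs <;> norm_num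
      linarith
    · push Not at hall
      obtain ⟨r, hr, hlt⟩ := hall
      have h0 : (1 : ℝ) ≤ ∑ r ∈ range R,
          (if dInt ((b : ℝ) ^ (r * W) * (2 * α * (b : ℝ) ^ L * (y - y'))) < 1 / (b : ℝ) ^ W
            then (1 : ℝ) else 0) := by
        refine le_trans ?_ (single_le_sum (f := fun r =>
          (if dInt ((b : ℝ) ^ (r * W) * (2 * α * (b : ℝ) ^ L * (y - y'))) < 1 / (b : ℝ) ^ W
            then (1 : ℝ) else 0)) ?_ (mem_range.mpr hr))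
        · rw [if_pos hlt]
        · intro r _
          split_ifs <;> norm_num
      have h1 : ∏ j ∈ range L, |Real.cos (Real.pi * ((b : ℝ) ^ j * (2 * α * (b : ℝ) ^ L * (y - y'))))|
          ≤ 1 := by
        apply prod_le_one
        · intro j _; exact abs_nonneg _
        · intro j _; exact Real.abs_cos_le_one _
      have h2 := pow_nonneg (th_pos hb).le R
      linarith
  have h6 : Sg ≤ ∑ y' ∈ DS b L, ∑ y ∈ DS b L, (th b ^ R + ∑ r ∈ range R,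
          (if dInt ((b : ℝ) ^ (r * W) * (2 * α * (b : ℝ) ^ L * (y - y'))) < 1 / (b : ℝ) ^ W
            then (1 : ℝ) else 0)) := by
    rw [hSg]
    apply sum_le_sum
    intro y' hy'
    apply sum_le_sum
    intro y hy
    exact hpt y' hy' y hy
  have h7 : ∀ y' ∈ DS b L, ∑ y ∈ DS b L, (th b ^ R + ∑ r ∈ range R,
          (if dInt ((b : ℝ) ^ (r * W) * (2 * α * (b : ℝ) ^ L * (y - y'))) < 1 / (b : ℝ) ^ W
            then (1 : ℝ) else 0))
      < 2 ^ L * (δ ^ 2) := by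
    intro y' hy'
    rw [sum_add_distrib, sum_const, card_DS hb, nsmul_eq_mul, sum_comm]
    push_cast
    have e1 : ∀ r ∈ range R, ∑ y ∈ DS b L,
        (if dInt ((b : ℝ) ^ (r * W) * (2 * α * (b : ℝ) ^ L * (y - y'))) < 1 / (b : ℝ) ^ W
            then (1 : ℝ) else 0) < δ ^ 2 / (2 * R) * 2 ^ L := by
      intro r hr
      have h8 := hcon r (mem_range.mp hr) y' hy'
      rw [cnt_eq_sum] at h8
      push_cast at h8
      exact h8
    have e2 : ∑ r ∈ range R, ∑ y ∈ DS b L,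
        (if dInt ((b : ℝ) ^ (r * W) * (2 * α * (b : ℝ) ^ L * (y - y'))) < 1 / (b : ℝ) ^ W
            then (1 : ℝ) else 0) < ∑ r ∈ range R, δ ^ 2 / (2 * R) * 2 ^ L :=
      sum_lt_sum_of_nonempty ⟨0, mem_range.mpr (by omega)⟩ e1
    rw [sum_const, card_range, nsmul_eq_mul] at e2
    have e3 : (R : ℝ) * (δ ^ 2 / (2 * R) * 2 ^ L) = 2 ^ L * (δ ^ 2 / 2) := by
      field_simp
    rw [e3] at e2
    have e4 : (2 : ℝ) ^ L * th b ^ R ≤ 2 ^ L * (δ ^ 2 / 2) := by gcongr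
    have e5 : (2 : ℝ) ^ L * (δ ^ 2 / 2) + 2 ^ L * (δ ^ 2 / 2) = 2 ^ L * δ ^ 2 := by ring
    linarith
  have h8 : ∑ y' ∈ DS b L, ∑ y ∈ DS b L, (th b ^ R + ∑ r ∈ range R,
          (if dInt ((b : ℝ) ^ (r * W) * (2 * α * (b : ℝ) ^ L * (y - y'))) < 1 / (b : ℝ) ^ W
            then (1 : ℝ) else 0)) < ∑ y' ∈ DS b L, 2 ^ L * (δ ^ 2) :=
    sum_lt_sum_of_nonempty ⟨0, zero_mem_DS b L⟩ h7
  rw [sum_const, card_DS hb, nsmul_eq_mul] at h8
  push_cast at h8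
  have e4 : (4 : ℝ) ^ L = 2 ^ L * 2 ^ L := by rw [← mul_pow]; norm_num
  rw [e4] at h3
  have : (2 : ℝ) ^ L * (2 ^ L * δ ^ 2) = δ ^ 2 * (2 ^ L * 2 ^ L) := by ring
  rw [this] at h8
  linarith

end Pool.Agent.Helper29_HSet
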